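import Pool.Agent.SNP.Iface
import Pool.Agent.SNP.A.Base

/-!
# SNP block D: certificates

`Cert c G T`: `c` are the coefficients of a rational map over a ring `A`, `G` a finite family of points with `f(G) ⊆ G` and `f⁻¹(G) ⊆ G ∪ T`, all critical points belong to `G ∪ T`, valid
for every homomorphism from `A` to a field.
-/

set_option autoImplicit false

namespace Pool.Agent.SNP

open Pool.Agent.Helper59.DML

structure Cert {A : Type} [CommRing A] {d : ℕ} (c : Fin 2 → Fin (d + 1) → A) {a b : ℕ} (G : Fin a → Fin 2 → A)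
    (T : Fin b → Fin 2 → A) : Prop where
  good : ∀ (k : Type) [Field k] (φ : A →+* k) (u : Fin 2 → k), u ≠ 0 → hlift (cmap φ c) u ≠ 0
  crit : ∀ (k : Type) [Field k] (φ : A →+* k) (u : Fin 2 → k), u ≠ 0 → jac (cmap φ c) u = 0 →
    (∃ g, det2 u (vmap φ (G g)) = 0) ∨ ∃ t, det2 u (vmap φ (T t)) = 0
  pre : ∀ (k : Type) [Field k] (φ : A →+* k) (u : Fin 2 → k), u ≠ 0 → ∀ g,
    det2 (hlift (cmap φ c) u) (vmap φ (G g)) = 0 →
    (∃ g, det2 u (vmap φ (G g)) = 0) ∨ ∃ t, det2 u (vmap φ (T t)) = 0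
  inv : ∀ g, ∃ g', det2 (hlift c (G g)) (G g') = 0
  unimG : ∀ g, ∃ k, G g k = 1
  unimT : ∀ t, ∃ k, T t k = 1
  targ : ∀ t, jac c (T t) = 0 ∨
    ((∃ g, det2 (hlift c (T t)) (G g) = 0) ∧ ∀ g, IsUnit (det2 (T t) (G g)))

/-- normalised vectors: one representative of every point of the projective line. -/
def Nv {K : Type*} [Field K] (x : Fin 2 → K) : Prop := x 1 = 1 ∨ x = ![1, 0]

theorem cmap_cmap {R S U : Type*} [CommRing R] [CommRing S] [CommRing U] (f : R →+* S) (g : S →+* U) {d : ℕ}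
    (c : Fin 2 → Fin (d + 1) → R) : cmap g (cmap f c) = cmap (g.comp f) c := rfl

theorem vmap_vmap {R S U : Type*} [CommRing R] [CommRing S] [CommRing U] (f : R →+* S) (g : S →+* U)
    (v : Fin 2 → R) : vmap g (vmap f v) = vmap (g.comp f) v := rfl

theorem vmap_hlift {R S : Type*} [CommRing R] [CommRing S] (f : R →+* S) {d : ℕ} (c : Fin 2 → Fin (d + 1) → R)
    (v : Fin 2 → R) : vmap f (hlift c v) = hlift (cmap f c) (vmap f v) :=
  map_hlift f c v

theorem map_jac' {R S : Type*} [CommRing R] [CommRing S] (f : R →+* S) {d : ℕ} (c : Fin 2 → Fin (d + 1) → R)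
    (v : Fin 2 → R) : f (jac c v) = jac (cmap f c) (vmap f v) :=
  map_jac f c v

section
variable {K : Type*} [Field K]

theorem ne_zero_of_one {x : Fin 2 → K} {k : Fin 2} (h : x k = 1) : x ≠ 0 := by
  rintro rfl
  simp at h

theorem Nv.ne_zero {x : Fin 2 → K} (h : Nv x) : x ≠ 0 := by
  rcases h with h | h
  · exact ne_zero_of_one h
  · rw [h]
    intro h0
    have := congrFun h0 0
    simp at this

/-- proportional vectors. -/
theorem eq_smul_of_det2 {P V : Fin 2 → K} (hP : P ≠ 0) (h : det2 P V = 0) :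
    ∃ μ : K, V = fun k => μ * P k := by
  have h' : P 0 * V 1 - P 1 * V 0 = 0 := h
  by_cases h0 : P 0 = 0
  · have h1 : P 1 ≠ 0 := by
      intro h1
      apply hP
      ext k
      fin_cases k
      · exact h0
      · exact h1
    refine ⟨V 1 / P 1, ?_⟩
    ext k
    fin_cases k
    · have : V 0 = 0 := by
        rw [h0, zero_mul, zero_sub, neg_eq_zero] at h'
        exact (mul_eq_zero.1 h').resolve_left h1
      simp [this, h0]
    · simp [h1]
  · refine ⟨V 0 / P 0, ?_⟩
    ext k
    fin_cases k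
    · simp [h0]
    · simp only [Fin.mk_one]
      field_simp
      linear_combination h'

theorem det2_smul_right (P V : Fin 2 → K) (μ : K) : det2 P (fun k => μ * V k) = μ * det2 P V := by
  simp only [det2]; ring

theorem det2_smul_left (P V : Fin 2 → K) (μ : K) : det2 (fun k => μ * P k) V = μ * det2 P V := by
  simp only [det2]; ring

theorem det2_self (P : Fin 2 → K) : det2 P P = 0 := by
  simp only [det2]; ring

theorem det2_symm {P V : Fin 2 → K} (h : det2 P V = 0) : det2 V P = 0 := by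
  have : det2 V P = - det2 P V := by simp only [det2]; ring
  rw [this, h, neg_zero]

/-- transitivity of proportionality. -/
theorem det2_trans {P V W : Fin 2 → K} (hV : V ≠ 0) (h : det2 P V = 0) (h' : det2 V W = 0) : det2 P W = 0 := by
  obtain ⟨μ, hμ⟩ := eq_smul_of_det2 hV (det2_symm h)
  obtain ⟨ν, hν⟩ := eq_smul_of_det2 hV h'
  rw [hμ, hν, det2_smul_left, det2_smul_right, det2_self]
  ring

/-- proportional vectors have proportional images. -/
theorem hlift_det2 {d : ℕ} (c : Fin 2 → Fin (d + 1) → K) (n : ℕ) {P V : Fin 2 → K} (hP : P ≠ 0) (h : det2 P V = 0) :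
    det2 ((hlift c)^[n] P) ((hlift c)^[n] V) = 0 := by
  obtain ⟨μ, hμ⟩ := eq_smul_of_det2 hP h
  rw [hμ, hlift_iter_smul, det2_smul_right, det2_self, mul_zero]

end

end Pool.Agent.SNP
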