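import Pool.Agent.SNP.D.Defs
import Pool.Agent.Helper59.UQ.Units

/-!
# SNP-D-EMB: embeddings of a finitely generated subring of `ℂ` into `ℤ_p`

PROOF. `gen` = the preimage of `S` in `A = Algebra.adjoin ℤ S` (`Finset.preimage` or `S.attach.image`), `Algebra.adjoin_adjoin_coe_preimage` gives `Algebra.adjoin ℤ gen = ⊤`. `embed_units S` (`UQ/Units.lean`): an infinite set of primes, so there is `p > B` in it (`Set.Infinite.exists_gt`), with `ψ' : IntermediateField.adjoin ℚ S →+* ℚ_p`. `A ≤ L = IntermediateField.adjoin ℚ S`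
(as sets: `Algebra.adjoin_le` for the `ℤ`-subalgebra of `L`, or `Algebra.adjoin_induction` to show `x ∈ A → x ∈ L`), the inclusion `A →+* L` is a ring homomorphism (`RingHom.codRestrict A.subtype L.toSubring..` or built by hand: `toFun x := ⟨x, _⟩`), injective; `ψ` = composition, injective (a ring homomorphism of fields is injective). `‖ψ x‖ ≤ 1` by
`Algebra.adjoin_induction`: for generators `x ∈ S`: `x = 0` or `‖ψ x‖ = 1`; integers: `norm_intCast_le_one'` (`DML/Good.lean`); sums: ultrametric `norm_add_le_one`; products `norm_mul_le_one`.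
-/

set_option autoImplicit false

namespace Pool.Agent.SNP

open Pool.Agent.Helper59.DML Pool.Agent.Helper59.UQ

theorem embed_ring (S : Finset ℂ) :
    (∃ gen : Finset (Algebra.adjoin ℤ (S : Set ℂ)), Algebra.adjoin ℤ (gen : Set (Algebra.adjoin ℤ (S : Set ℂ))) = ⊤) ∧
    ∀ B : ℕ, ∃ (p : ℕ) (_ : Fact p.Prime) (ψ : Algebra.adjoin ℤ (S : Set ℂ) →+* ℚ_[p]), B < p ∧
      Function.Injective ψ ∧ ∀ x, ‖ψ x‖ ≤ 1 := by
  classical
  constructor
  · refine ⟨S.preimage Subtype.val Subtype.val_injective.injOn, ?_⟩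
    rw [Finset.coe_preimage]
    exact Algebra.adjoin_adjoin_coe_preimage
  · intro B
    obtain ⟨p, ⟨hp, ψ', hψ'⟩, hBp⟩ := (embed_units S).exists_gt B
    have := hp
    have hmem : ∀ x : ℂ, x ∈ Algebra.adjoin ℤ (S : Set ℂ) →
        x ∈ IntermediateField.adjoin ℚ (S : Set ℂ) := by
      intro x hx
      refine Algebra.adjoin_induction (fun y hy => ?_) (fun r => ?_) (fun y z _ _ hy hz => ?_)
        (fun y z _ _ hy hz => ?_) hx
      · exact IntermediateField.subset_adjoin ℚ _ hy
      · have h1 : algebraMap ℤ ℂ r = ((r : ℤ) : ℂ) := by simp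
        rw [h1]
        exact intCast_mem _ r
      · exact add_mem hy hz
      · exact mul_mem hy hz
    let ι : Algebra.adjoin ℤ (S : Set ℂ) →+* IntermediateField.adjoin ℚ (S : Set ℂ) :=
      { toFun := fun x => ⟨x.1, hmem x.1 x.2⟩
        map_one' := rfl
        map_mul' := fun _ _ => rfl
        map_zero' := rfl
        map_add' := fun _ _ => rfl }
    have hι : Function.Injective ι := by
      intro x y hxy
      exact Subtype.ext (congrArg (fun z : IntermediateField.adjoin ℚ (S : Set ℂ) => (z : ℂ)) hxy)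
    refine ⟨p, hp, ψ'.comp ι, hBp, ?_, ?_⟩
    · rw [RingHom.coe_comp]
      exact ψ'.injective.comp hι
    · rintro ⟨x, hx⟩
      refine Algebra.adjoin_induction
        (p := fun x hx => ‖(ψ'.comp ι) (⟨x, hx⟩ : Algebra.adjoin ℤ (S : Set ℂ))‖ ≤ 1)
        (fun y hy => ?_) (fun r => ?_) (fun y z hy' hz' hy hz => ?_)
        (fun y z hy' hz' hy hz => ?_) hx
      · rcases eq_or_ne y 0 with h0 | h0
        · have h1 : (⟨y, Algebra.subset_adjoin hy⟩ : Algebra.adjoin ℤ (S : Set ℂ)) = 0 :=
            Subtype.ext h0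
          rw [h1, map_zero, norm_zero]
          exact zero_le_one
        · have h1 := hψ' ⟨y, hmem y (Algebra.subset_adjoin hy)⟩ hy
            (fun h => h0 (congrArg (fun z : IntermediateField.adjoin ℚ (S : Set ℂ) => (z : ℂ)) h))
          exact h1.le
      · have h1 : (⟨algebraMap ℤ ℂ r, Subalgebra.algebraMap_mem _ r⟩ :
            Algebra.adjoin ℤ (S : Set ℂ)) = ((r : ℤ) : Algebra.adjoin ℤ (S : Set ℂ)) := by
          apply Subtype.ext
          simp
        rw [h1, map_intCast]
        exact norm_intCast_le_one' r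
      · have h1 : (⟨y + z, add_mem hy' hz'⟩ : Algebra.adjoin ℤ (S : Set ℂ)) =
            ⟨y, hy'⟩ + ⟨z, hz'⟩ := rfl
        rw [h1, map_add]
        exact norm_add_le_one hy hz
      · have h1 : (⟨y * z, mul_mem hy' hz'⟩ : Algebra.adjoin ℤ (S : Set ℂ)) =
            ⟨y, hy'⟩ * ⟨z, hz'⟩ := rfl
        rw [h1, map_mul]
        exact norm_mul_le_one hy hz

end Pool.Agent.SNP
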