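import Pool.Agent.SNP.D.Defs

/-!
# SNP-D-FINISH: the dynamical Mordell-Lang conclusion from one good prime

PROOF. `A` is a domain (`i` injective). `L = FractionRing A`, `Algebra L ℂ` by `(IsFractionRing.lift hi : L →+* ℂ).toAlgebra`, `f : L →+* ℚ_[q]` = `IsFractionRing.lift` of the injective composition `A → ℤ_[q] → ℚ_[q]` (`PadicInt.Coe.ringHom`). `transfer f` (`DML/Transfer.lean`) with `c := cmap (algebraMap A L) (c i)`, `v := vmap (algebraMap A L) (v i)`, `Hs = {H}`; then `algebraMap L ℂ` of the iterates are the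
iterates of the data mapped by `i` (`vmap_hlift_iter`, `IsFractionRing.lift_algebraMap`), so the conclusion of `transfer` is the claim. `hcore`: `core` (`DML/Core.lean`) with `K = ℚ_[q]` (`ProperSpace ℚ_[q]` is an instance), `hp1 = Padic.norm_p_lt_one`, `c := cmap θ' (c i)` (`θ'` = composition `A → ℚ_[q]`), `‖θ' x‖ ≤ 1`, `‖θ' x‖ = 1 ↔ toZMod (θ x) ≠ 0`
(`PadicInt.ker_toZMod`, `PadicInt.mem_nonunits`; see the first lemma of `UQ/Units.lean`), `hv`: the vector `θ' ((hlift (c i))^[n] (v i))` has coordinates of norm `≤ 1` and one of norm `1` by `h0`; `hu` from `h1`, `n₀ = N`.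
-/

set_option autoImplicit false

namespace Pool.Agent.SNP

open Pool.Agent.Helper59.DML

private theorem core_aux {A : Type} [CommRing A] {ι : Type} [Fintype ι] {d : ι → ℕ}
    {c : (i : ι) → Fin 2 → Fin (d i + 1) → A} {v : ι → Fin 2 → A} {q : ℕ} [Fact q.Prime] (θ : A →+* ℤ_[q])
    (h0 : ∀ i n, vmap ((PadicInt.toZMod (p := q)).comp θ) ((hlift (c i))^[n] (v i)) ≠ 0) {N : ℕ}
    (h1 : ∀ i n, N ≤ n → ((PadicInt.toZMod (p := q)).comp θ) (jac (c i) ((hlift (c i))^[n] (v i))) ≠ 0)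
    {H : MvPolynomial (ι × Fin 2) ℚ_[q]} (hH : MHom H) (θ' : A →+* ℚ_[q]) (hθ' : ∀ x, ‖θ' x‖ = ‖θ x‖) :
    EP (fun n => MvPolynomial.eval (fun x => (hlift (cmap θ' (c x.1)))^[n] (vmap θ' (v x.1)) x.2) H = 0) := by
  have hn : ∀ x : A, ‖θ' x‖ ≤ 1 := fun x => (hθ' x).trans_le (PadicInt.norm_le_one (θ x))
  have hn1 : ∀ x : A, ((PadicInt.toZMod (p := q)).comp θ) x ≠ 0 → ‖θ' x‖ = 1 := by
    intro x hx
    refine le_antisymm (hn x) (not_lt.1 fun h => hx ?_)
    rw [hθ'] at h
    have h2 : θ x ∈ RingHom.ker (PadicInt.toZMod : ℤ_[q] →+* ZMod q) := by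
      rw [PadicInt.ker_toZMod]
      exact PadicInt.mem_nonunits.2 h
    exact RingHom.mem_ker.1 h2
  refine core (c := fun j => cmap θ' (c j)) (v := fun j => vmap θ' (v j)) (p := q)
    (Fact.out : q.Prime) Padic.norm_p_lt_one (fun j k l => hn (c j k l)) ?_
    (n₀ := N) ?_ hH
  · intro j n
    rw [← vmap_hlift_iter]
    refine le_antisymm ((pi_norm_le_iff_of_nonneg zero_le_one).2 fun k => hn _) ?_
    obtain ⟨k, hk⟩ : ∃ k, vmap ((PadicInt.toZMod (p := q)).comp θ)
        ((hlift (c j))^[n] (v j)) k ≠ 0 := by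
      by_contra hcon
      push Not at hcon
      exact h0 j n (funext hcon)
    rw [← hn1 _ hk]
    exact norm_le_pi_norm (vmap θ' ((hlift (c j))^[n] (v j))) k
  · intro j n hNn
    rw [← vmap_hlift_iter, ← map_jac']
    exact hn1 _ (h1 j n hNn)

private theorem finish_aux {A L K : Type} [CommRing A] [Field L] [Field K] [Algebra L ℂ] (i : A →+* ℂ)
    (a : A →+* L) (hca : ∀ x, algebraMap L ℂ (a x) = i x) (θ' : A →+* K)
    (f : L →+* K) (hfa : ∀ x, f (a x) = θ' x) {ι : Type} [Fintype ι] {d : ι → ℕ}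
    {c : (i : ι) → Fin 2 → Fin (d i + 1) → A} {v : ι → Fin 2 → A}
    (hK : ∀ H : MvPolynomial (ι × Fin 2) K, MHom H →
      EP (fun n => MvPolynomial.eval (fun x => (hlift (cmap θ' (c x.1)))^[n] (vmap θ' (v x.1)) x.2) H = 0))
    (H : MvPolynomial (ι × Fin 2) ℂ) (hH : MultiHom H) :
    EP (fun n => MvPolynomial.eval (fun x => (hlift (cmap i (c x.1)))^[n] (vmap i (v x.1)) x.2) H = 0) := by
  have e1 : ∀ j, (fun k l => f (cmap a (c j) k l)) = cmap θ' (c j) := by
    intro j
    funext k l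
    exact hfa _
  have e2 : ∀ j, (fun k => f (vmap a (v j) k)) = vmap θ' (v j) := by
    intro j
    funext k
    exact hfa _
  have hT := transfer (L := L) (E := ℂ) f (fun j => cmap a (c j)) (fun j => vmap a (v j)) {H}
    (by simpa using hH) (by
      intro H' hH'
      simp only [e1, e2]
      exact hK H' hH')
  refine hT.congr fun n => ?_
  simp only [Finset.mem_singleton, forall_eq]
  have e3 : ∀ x : ι × Fin 2, algebraMap L ℂ ((hlift (cmap a (c x.1)))^[n] (vmap a (v x.1)) x.2) =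
      (hlift (cmap i (c x.1)))^[n] (vmap i (v x.1)) x.2 := by
    intro x
    rw [← vmap_hlift_iter, ← vmap_hlift_iter]
    exact hca _
  simp only [e3]

theorem finish {A : Type} [CommRing A] (i : A →+* ℂ) (hi : Function.Injective i) {ι : Type} [Fintype ι] {d : ι → ℕ}
    {c : (i : ι) → Fin 2 → Fin (d i + 1) → A} {v : ι → Fin 2 → A} {q : ℕ} [Fact q.Prime] (θ : A →+* ℤ_[q])
    (hθ : Function.Injective θ)
    (h0 : ∀ i n, vmap ((PadicInt.toZMod (p := q)).comp θ) ((hlift (c i))^[n] (v i)) ≠ 0) {N : ℕ}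
    (h1 : ∀ i n, N ≤ n → ((PadicInt.toZMod (p := q)).comp θ) (jac (c i) ((hlift (c i))^[n] (v i))) ≠ 0)
    (H : MvPolynomial (ι × Fin 2) ℂ) (hH : MultiHom H) :
    EP (fun n => MvPolynomial.eval (fun x => (hlift (cmap i (c x.1)))^[n] (vmap i (v x.1)) x.2) H = 0) := by
  have hdom : IsDomain A := hi.isDomain i
  have hθ' : Function.Injective ((PadicInt.Coe.ringHom (p := q)).comp θ) :=
    Subtype.val_injective.comp hθ
  let _ : Algebra (FractionRing A) ℂ := (IsFractionRing.lift hi : FractionRing A →+* ℂ).toAlgebra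
  exact finish_aux i (algebraMap A (FractionRing A)) (fun x => IsFractionRing.lift_algebraMap hi x)
    ((PadicInt.Coe.ringHom (p := q)).comp θ) (IsFractionRing.lift hθ')
    (fun x => IsFractionRing.lift_algebraMap hθ' x)
    (fun H' hH' => core_aux θ h0 h1 hH' _ (fun x => rfl)) H hH

end Pool.Agent.SNP
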