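import Pool.Agent.SNP.D.Defs

/-!
# SNP-D-HIT: infinite orbits do not hit the invariant set; no critical points along the orbit modulo `q`

PROOF. (a) `hit_ne`: suppose `σ (det2 ((hlift c)^[N] v) (G g)) = 0`; put `u n = (hlift (cmap σ c))^[n] (vmap σ v)`, so `det2 (u N) (vmap σ (G g)) = 0` (`map_det2`, `vmap_hlift_iter`). `u n ≠ 0` for all `n` (otherwise `det2 (u n) _ = 0`, contradicting `horb`). By induction on `k` there is `g_k` with `det2 (u (N + k)) (vmap σ (G g_k)) = 0`:
`hlift_det2` (with one step) gives `det2 (u (N+k+1)) (hlift (cmap σ c) (vmap σ (G g_k))) = 0`, and `hcert.inv g_k` mapped by `σ` (`vmap_hlift`), `det2_trans` (the middle vector `hlift (cmap σ c) (vmap σ (G g_k)) ≠ 0` by `hcert.good`, as `vmap σ (G g_k) ≠ 0` by `hcert.unimG`). Pigeonhole: `g_k = g_l`, `k < l` (infinitely many `k`, finitely many values: `Finite.exists_ne_map_eq_of_infinite`),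
so `u (N+k) ∝ G g_k ∝ u (N+l)`, contradiction to `horb (N+k) (N+l)`. (`K : Type` field: `hcert.good K σ`.)
(b) `no_crit`: `u n = vmap φ ((hlift c)^[n] v) = (hlift (cmap φ c))^[n] (vmap φ v)`, nonzero for all `n` (`hcert.good`). First: `det2 (u n) (vmap φ (T t)) ≠ 0` for all `n ≥ N` and all `t` (`hT` for the vector `u (n - N)`). Second: `det2 (u n) (vmap φ (G g)) ≠ 0` for all `n ≥ N`, `g`, by induction from `n = N` (`hG`): if `det2 (u (n+1)) (G g) = 0` then by `hcert.pre` for `u n`: `u n ∝ G g'` (induction hypothesis)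
or `u n ∝ T t` (first). Now `hcert.crit` for `u n`.
-/

set_option autoImplicit false

namespace Pool.Agent.SNP

open Pool.Agent.Helper59.DML Pool.Agent.Helper59.UQ

variable {A : Type} [CommRing A] {d : ℕ} {c : Fin 2 → Fin (d + 1) → A}
  {a b : ℕ} {G : Fin a → Fin 2 → A} {T : Fin b → Fin 2 → A}

private theorem hit_step {K : Type} [Field K] (σ : A →+* K) (hcert : Cert c G T) {u : Fin 2 → K} (hu : u ≠ 0)
    (g : Fin a) (h : det2 u (vmap σ (G g)) = 0) :
    ∃ g', det2 (hlift (cmap σ c) u) (vmap σ (G g')) = 0 := by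
  obtain ⟨g', hg'⟩ := hcert.inv g
  refine ⟨g', ?_⟩
  have h1 : det2 (hlift (cmap σ c) (vmap σ (G g))) (vmap σ (G g')) = 0 := by
    rw [← vmap_hlift, ← map_det2, hg', map_zero]
  have h2 : vmap σ (G g) ≠ 0 := by
    obtain ⟨k, hk⟩ := hcert.unimG g
    exact ne_zero_of_one (k := k) (by simp [vmap, hk])
  have h3 : hlift (cmap σ c) (vmap σ (G g)) ≠ 0 := hcert.good K σ _ h2
  have h4 : det2 (hlift (cmap σ c) u) (hlift (cmap σ c) (vmap σ (G g))) = 0 :=
    hlift_det2 (cmap σ c) 1 hu h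
  exact det2_trans h3 h4 h1

theorem hit_ne {K : Type} [Field K] (σ : A →+* K) (hcert : Cert c G T) {v : Fin 2 → A}
    (horb : InfOrb (cmap σ c) (vmap σ v)) (N : ℕ) (g : Fin a) : σ (det2 ((hlift c)^[N] v) (G g)) ≠ 0 := by
  intro h0
  set u : ℕ → Fin 2 → K := fun n => (hlift (cmap σ c))^[n] (vmap σ v) with hu
  have horb' : ∀ m n, m < n → det2 (u m) (u n) ≠ 0 := fun m n hmn => horb m n hmn.ne
  have hne : ∀ n, u n ≠ 0 := by
    intro n h
    apply horb' n (n + 1) (Nat.lt_succ_self n)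
    rw [h]
    simp [det2]
  have hN : det2 (u N) (vmap σ (G g)) = 0 := by
    rw [map_det2, vmap_hlift_iter] at h0
    exact h0
  have key : ∀ k : ℕ, ∃ g', det2 (u (N + k)) (vmap σ (G g')) = 0 := by
    intro k
    induction k with
    | zero => exact ⟨g, hN⟩
    | succ k ih =>
      obtain ⟨g', hg'⟩ := ih
      obtain ⟨g'', hg''⟩ := hit_step σ hcert (hne (N + k)) g' hg'
      refine ⟨g'', ?_⟩
      have : u (N + (k + 1)) = hlift (cmap σ c) (u (N + k)) := by
        rw [hu]
        simp only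
        rw [← Nat.add_assoc, Function.iterate_succ_apply']
      rw [this]
      exact hg''
  choose gg hgg using key
  obtain ⟨k, l, hkl, hg⟩ := Finite.exists_ne_map_eq_of_infinite gg
  have hG0 : ∀ g', vmap σ (G g') ≠ 0 := by
    intro g'
    obtain ⟨k, hk⟩ := hcert.unimG g'
    exact ne_zero_of_one (k := k) (by simp [vmap, hk])
  have hprop : ∀ k l, gg k = gg l → det2 (u (N + k)) (u (N + l)) = 0 := by
    intro k l h
    refine det2_trans (hG0 (gg k)) (hgg k) ?_
    rw [h]
    exact det2_symm (hgg l)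
  rcases lt_or_gt_of_ne hkl with h | h
  · exact horb' (N + k) (N + l) (by omega) (hprop k l hg)
  · exact horb' (N + l) (N + k) (by omega) (hprop l k hg.symm)

theorem no_crit (hcert : Cert c G T) {k : Type} [Field k] (φ : A →+* k) {v : Fin 2 → A} (hv : vmap φ v ≠ 0) {N : ℕ}
    (hG : ∀ g, φ (det2 ((hlift c)^[N] v) (G g)) ≠ 0)
    (hT : ∀ t (u : Fin 2 → k), u ≠ 0 → det2 ((hlift (cmap φ c))^[N] u) (vmap φ (T t)) ≠ 0) :
    (∀ n, vmap φ ((hlift c)^[n] v) ≠ 0) ∧ ∀ n, N ≤ n → φ (jac c ((hlift c)^[n] v)) ≠ 0 := by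
  have hit : ∀ n, vmap φ ((hlift c)^[n] v) = (hlift (cmap φ c))^[n] (vmap φ v) := fun n =>
    vmap_hlift_iter φ c v n
  have hne : ∀ n, vmap φ ((hlift c)^[n] v) ≠ 0 := by
    intro n
    induction n with
    | zero => exact hv
    | succ n ih =>
      rw [hit] at ih ⊢
      rw [Function.iterate_succ_apply']
      exact hcert.good k φ _ ih
  refine ⟨hne, ?_⟩
  have hTn : ∀ n, N ≤ n → ∀ t, det2 (vmap φ ((hlift c)^[n] v)) (vmap φ (T t)) ≠ 0 := by
    intro n hn t
    have h1 := hT t (vmap φ ((hlift c)^[n - N] v)) (hne (n - N))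
    rw [hit, ← Function.iterate_add_apply] at h1
    have h2 : N + (n - N) = n := by omega
    rw [h2] at h1
    rw [hit]
    exact h1
  have hGn : ∀ n, N ≤ n → ∀ g, det2 (vmap φ ((hlift c)^[n] v)) (vmap φ (G g)) ≠ 0 := by
    intro n hn
    induction n, hn using Nat.le_induction with
    | base =>
      intro g
      rw [← map_det2]
      exact hG g
    | succ n hn ih =>
      intro g h
      have h1 : det2 (hlift (cmap φ c) (vmap φ ((hlift c)^[n] v))) (vmap φ (G g)) = 0 := by
        rw [Function.iterate_succ_apply', vmap_hlift] at h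
        exact h
      rcases hcert.pre k φ _ (hne n) g h1 with ⟨g', hg'⟩ | ⟨t, ht⟩
      · exact ih g' hg'
      · exact hTn n hn t ht
  intro n hn h
  rw [map_jac'] at h
  rcases hcert.crit k φ _ (hne n) h with ⟨g', hg'⟩ | ⟨t, ht⟩
  · exact hGn n hn g' hg'
  · exact hTn n hn t ht

end Pool.Agent.SNP
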