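import Pool.Agent.SNP.D.Defs
import Pool.Agent.Helper59.UQ.Stable

/-!
# SNP-D-APPROX: algebraic approximation of the data, keeping infinite orbits and nonvanishing elements

PROOF. `stable_orbit` (`UQ/Stable.lean`) for every `i`: `T i`, `δ i > 0`. `F` = `gen` mapped by `ψ`, union all `T i`, union `{ψ x, (ψ x)⁻¹ | x ∈ W}`; `ε` = a positive number `≤ 1` and `≤ δ i` for all `i` (`Finite.exists_...`/`Finset.exists_..`, finite `ι`). `R = Algebra.adjoin ℤ (F : Set ℚ_[p])`. `ρ : A →+* R`: every `ψ x` is in `R`: the set of `x : A` with `ψ x ∈ R` is a subalgebra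
containing `gen` (`Algebra.adjoin_induction` with `hgen`, or `Subalgebra.comap`), so `ρ x = ⟨ψ x, _⟩` (`RingHom.codRestrict`). `LIFT p F ε` gives `K, jp, s, B`. `σ = s.comp ρ`.
(i) `‖jp (σ x) - ψ x‖ < 1`: for `x ∈ gen`: `< ε ≤ 1`. In general by `Algebra.adjoin_induction` (`hgen`): integers: difference `0`; sums: ultrametric; products: `jp σ(xy) - ψ(xy) = (jp σ x - ψ x) jp σ y + ψ x (jp σ y - ψ y)`, `‖ψ x‖ ≤ 1`, `‖jp σ y‖ ≤ 1`.
(ii) `InfOrb`: `stable_orbit` with `c := cmap ψ (c i)`, `v := vmap ψ (v i)`, `hinf` from `horb` (`ψ` injective, `map_det2`, `vmap_hlift_iter`), and then `A := R`, `ψ := R.subtype` (injective; as a ring homomorphism `(Algebra.adjoin ℤ F).toSubring.subtype` or `algebraMap R ℚ_[p]`), `φ := jp.comp s`, `c₀ := cmap ρ (c i)`, `v₀ := vmap ρ (v i)`. The result is `InfOrb` of the data mapped by `jp`, so also of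
the data mapped by `σ` (`det2` of the data mapped by `jp` is `jp` of ..., if it were zero ...).
(iii) `x ∈ W`, `x ≠ 0`: `ψ x ≠ 0`, `y = ψ x`, `y⁻¹ ∈ F`: in `R`: `⟨y, _⟩ * ⟨y⁻¹, _⟩ = 1`, so `s ⟨y, _⟩ ≠ 0`, and `⟨y, _⟩ = ρ x`.
(iv) `B` from `LIFT`; `θ = f.comp ρ`, injective as `f` and `ρ` are.
-/

set_option autoImplicit false

namespace Pool.Agent.SNP

open Pool.Agent.Helper59.DML Pool.Agent.Helper59.UQ NumberField

theorem exists_approx (hC : LIFT) {A : Type} [CommRing A] {gen : Finset A} (hgen : Algebra.adjoin ℤ (gen : Set A) = ⊤)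
    {p : ℕ} [Fact p.Prime] (ψ : A →+* ℚ_[p]) (hψ : Function.Injective ψ) (hψ1 : ∀ x, ‖ψ x‖ ≤ 1)
    {ι : Type} [Fintype ι] {d : ι → ℕ} {c : (i : ι) → Fin 2 → Fin (d i + 1) → A} {v : ι → Fin 2 → A}
    (hgood : ∀ i n, ‖(hlift (cmap ψ (c i)))^[n] (vmap ψ (v i))‖ = 1) (horb : ∀ i, InfOrb (c i) (v i))
    (W : Finset A) (hW : ∀ x ∈ W, x ≠ 0) :
    ∃ (K : Type) (_ : Field K) (_ : NumberField K) (jp : K →+* ℚ_[p]) (σ : A →+* K),
      (∀ x, ‖jp (σ x) - ψ x‖ < 1) ∧ (∀ i, InfOrb (cmap σ (c i)) (vmap σ (v i))) ∧ (∀ x ∈ W, σ x ≠ 0) ∧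
      ∃ B : ℕ, ∀ (q : ℕ) [Fact q.Prime], B < q → ∀ ψ' : 𝓞 K →+* ZMod q, ∃ θ : A →+* ℤ_[q], Function.Injective θ ∧
        ∀ (x : A) (n : ℕ) (y : 𝓞 K), (y : K) = n * σ x → ψ' y = n * PadicInt.toZMod (θ x) := by
  classical
  -- the stability data
  have hst : ∀ i, ∃ (T : Finset ℚ_[p]) (δ : ℝ), 0 < δ ∧ ∀ (A' : Type) [CommRing A']
      (ψ' φ : A' →+* ℚ_[p]), Function.Injective ψ' →
      ∀ (c₀ : Fin 2 → Fin (d i + 1) → A') (v₀ : Fin 2 → A'),
      (∀ k j, ψ' (c₀ k j) = cmap ψ (c i) k j) → (∀ k, ψ' (v₀ k) = vmap ψ (v i) k) →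
      (∀ y ∈ T, y ∈ ψ'.range) → (∀ x : A', ψ' x ∈ T → ‖φ x - ψ' x‖ < δ) →
      InfOrb (fun k j => φ (c₀ k j)) (fun k => φ (v₀ k)) := by
    intro i
    refine stable_orbit (fun k j => hψ1 _) (hgood i) ?_
    intro n m hnm h0
    refine horb i n m hnm (hψ ?_)
    rw [map_det2, vmap_hlift_iter, vmap_hlift_iter, map_zero]
    exact h0
  choose T δ hδ hT using hst
  obtain ⟨ε, hε0, hε1, hε⟩ : ∃ ε : ℝ, 0 < ε ∧ ε ≤ 1 ∧ ∀ i, ε ≤ δ i := by
    rcases isEmpty_or_nonempty ι with hι | hι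
    · exact ⟨1, one_pos, le_rfl, fun i => hι.elim i⟩
    · obtain ⟨i₀, hi₀⟩ := Finite.exists_min δ
      exact ⟨min 1 (δ i₀), lt_min one_pos (hδ i₀), min_le_left _ _,
        fun i => (min_le_right _ _).trans (hi₀ i)⟩
  obtain ⟨F, hF⟩ : ∃ F : Finset ℚ_[p], F = gen.image ψ ∪ (Finset.univ.biUnion T ∪
    (W.image ψ ∪ W.image fun x => (ψ x)⁻¹)) := ⟨_, rfl⟩
  have hFgen : ∀ x ∈ gen, ψ x ∈ F := fun x hx => by
    rw [hF]
    exact Finset.mem_union_left _ (Finset.mem_image_of_mem _ hx)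
  have hFT : ∀ i, ∀ y ∈ T i, y ∈ F := fun i y hy => by
    rw [hF]
    exact Finset.mem_union_right _ (Finset.mem_union_left _
      (Finset.mem_biUnion.2 ⟨i, Finset.mem_univ i, hy⟩))
  have hFW : ∀ x ∈ W, (ψ x)⁻¹ ∈ F := fun x hx => by
    rw [hF]
    exact Finset.mem_union_right _ (Finset.mem_union_right _ (Finset.mem_union_right _
      (Finset.mem_image_of_mem (fun x => (ψ x)⁻¹) hx)))
  obtain ⟨K, iK, iN, jp, s, hs, B, hB⟩ := hC p F ε hε0
  -- `ψ` has values in `R`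
  have hR : ∀ x : A, ψ x ∈ Algebra.adjoin ℤ (F : Set ℚ_[p]) := by
    intro x
    have hx : x ∈ Algebra.adjoin ℤ (gen : Set A) := by
      rw [hgen]
      exact Algebra.mem_top
    induction hx using Algebra.adjoin_induction with
    | mem x hx => exact Algebra.subset_adjoin (hFgen x hx)
    | algebraMap r =>
      have h1 : ψ (algebraMap ℤ A r) = algebraMap ℤ ℚ_[p] r := by simp
      rw [h1]
      exact Subalgebra.algebraMap_mem _ r
    | add x y _ _ hx hy =>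
      rw [map_add]
      exact add_mem hx hy
    | mul x y _ _ hx hy =>
      rw [map_mul]
      exact mul_mem hx hy
  let ρ : A →+* Algebra.adjoin ℤ (F : Set ℚ_[p]) :=
    ψ.codRestrict (Algebra.adjoin ℤ (F : Set ℚ_[p])) hR
  have hρ : ∀ x, ((ρ x : Algebra.adjoin ℤ (F : Set ℚ_[p])) : ℚ_[p]) = ψ x := fun x => rfl
  have hρi : Function.Injective ρ := by
    intro x y hxy
    apply hψ
    rw [← hρ, ← hρ, hxy]
  refine ⟨K, iK, iN, jp, s.comp ρ, ?_, ?_, ?_, B, ?_⟩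
  · -- approximation
    intro x
    have hx : x ∈ Algebra.adjoin ℤ (gen : Set A) := by
      rw [hgen]
      exact Algebra.mem_top
    induction hx using Algebra.adjoin_induction with
    | mem x hx =>
      have h1 := hs (ρ x) (by rw [hρ]; exact hFgen x hx)
      rw [hρ] at h1
      exact h1.trans_le hε1
    | algebraMap r =>
      have h1 : jp ((s.comp ρ) (algebraMap ℤ A r)) - ψ (algebraMap ℤ A r) = 0 := by simp
      rw [h1, norm_zero]
      exact one_pos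
    | add x y _ _ hx hy =>
      have h1 : jp ((s.comp ρ) (x + y)) - ψ (x + y) =
          (jp ((s.comp ρ) x) - ψ x) + (jp ((s.comp ρ) y) - ψ y) := by
        rw [map_add, map_add, map_add]
        ring
      rw [h1]
      exact (IsUltrametricDist.norm_add_le_max _ _).trans_lt (max_lt hx hy)
    | mul x y _ _ hx hy =>
      have h1 : jp ((s.comp ρ) (x * y)) - ψ (x * y) =
          (jp ((s.comp ρ) x) - ψ x) * jp ((s.comp ρ) y) + ψ x * (jp ((s.comp ρ) y) - ψ y) := by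
        rw [map_mul, map_mul, map_mul]
        ring
      have h2 : ‖jp ((s.comp ρ) y)‖ ≤ 1 := by
        have h3 : jp ((s.comp ρ) y) = (jp ((s.comp ρ) y) - ψ y) + ψ y := by ring
        rw [h3]
        exact (IsUltrametricDist.norm_add_le_max _ _).trans (max_le hy.le (hψ1 y))
      rw [h1]
      refine (IsUltrametricDist.norm_add_le_max _ _).trans_lt (max_lt ?_ ?_)
      · rw [norm_mul]
        nlinarith [norm_nonneg (jp ((s.comp ρ) x) - ψ x), norm_nonneg (jp ((s.comp ρ) y))]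
      · rw [norm_mul]
        nlinarith [norm_nonneg (jp ((s.comp ρ) y) - ψ y), norm_nonneg (ψ x), hψ1 x]
  · -- infinite orbits
    intro i n m hnm h0
    have h1 := hT i (Algebra.adjoin ℤ (F : Set ℚ_[p]))
      (Algebra.adjoin ℤ (F : Set ℚ_[p])).val.toRingHom (jp.comp s) Subtype.val_injective
      (cmap ρ (c i)) (vmap ρ (v i)) (fun k j => rfl) (fun k => rfl)
      (fun y hy => ⟨⟨y, Algebra.subset_adjoin (hFT i y hy)⟩, rfl⟩)
      (fun x hx => (hs x (hFT i _ hx)).trans_le (hε i)) n m hnm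
    apply h1
    have h2 := congrArg jp h0
    rw [map_det2, vmap_hlift_iter, vmap_hlift_iter, map_zero] at h2
    exact h2
  · -- nonvanishing
    intro x hx h0
    have hx0 : ψ x ≠ 0 := fun h => hW x hx (hψ (by rw [h, map_zero]))
    have h1 : ρ x * ⟨(ψ x)⁻¹, Algebra.subset_adjoin (hFW x hx)⟩ = 1 := by
      apply Subtype.ext
      change ψ x * (ψ x)⁻¹ = 1
      exact mul_inv_cancel₀ hx0
    have h2 := congrArg s h1
    have h3 : s (ρ x) = 0 := h0
    rw [map_mul, h3, zero_mul, map_one] at h2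
    exact zero_ne_one h2
  · intro q _ hq ψ'
    obtain ⟨f, hf, h⟩ := hB q hq ψ'
    exact ⟨f.comp ρ, hf.comp hρi, fun x n y hy => h (ρ x) n y hy⟩

end Pool.Agent.SNP
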