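import Pool.Agent.SNP.D.Res
import Pool.Agent.SNP.D.Approx

/-!
# SNP-D-STAGE: the automorphism `τ` for the approximated data

PROOF. Choose `p > max d i` (`Finset.univ.sup d`) and `ψ` by `hemb`. For every `i, t` let `m i t` be the minimal `m ≥ 1` with `‖ψ (det2 ((hlift (c i))^[m] (T i t)) (T i t))‖ < 1` if it exists (`Nat.find`), else `1`. `W` = the finite set of the elements `det2 ((hlift (c i))^[m i t] (T i t)) (T i t)`, nonzero by `hT`. `exists_approx` (with `hgood` from `iter_norm`) gives `K, jp, σ, B`.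
`φ = jp.comp σ : A →+* ℚ_[p]`, `‖φ x‖ ≤ 1` (from `‖φ x - ψ x‖ < 1`, `‖ψ x‖ ≤ 1`), and `‖φ x‖ < 1 ↔ ‖ψ x‖ < 1`.
Apply `LOC` with `J = Σ i, Fin (b i)`, `d' ⟨i, t⟩ = d i` (`2 ≤ d i` by `hTd` since `Fin (b i)` is not empty; `d i < p`), `c' = cmap φ (c i)`, `w = vmap φ (T i t)`; `GoodRed`: `goodRed_of_cert`; `‖w‖ = 1`: coordinates of norm `≤ 1` and one of them is `1`; `NPer ∨ CPer`: `(hcert i).targ t`: in the second case `nper_of_targ`; in the first case `CPer`: `jac = 0` by `map_jac'`; let `m ≥ 1` with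
`‖det2 (f^m w) w‖ < 1` and `= 1` for all smaller `m' ≥ 1`. As `det2 (f^m w) w = φ (det2 ((hlift (c i))^[m] (T i t)) (T i t))`, `m` is the minimal one for `ψ`, i.e. `m = m i t`, so the element is in `W` and `σ` of it is not zero, `jp` is injective.
`LOC` gives `N, τ` (the maps in the conclusion are equal to `cmap (al p) (cmap (jp.comp σ) (c i))` definitionally).
-/

set_option autoImplicit false

namespace Pool.Agent.SNP

open Pool.Agent.Helper59.DML Pool.Agent.Helper59.UQ NumberField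

theorem stage (hL : LOC) (hC : LIFT) {A : Type} [CommRing A] {gen : Finset A} (hgen : Algebra.adjoin ℤ (gen : Set A) = ⊤)
    (hemb : ∀ B : ℕ, ∃ (p : ℕ) (_ : Fact p.Prime) (ψ : A →+* ℚ_[p]), B < p ∧ Function.Injective ψ ∧ ∀ x, ‖ψ x‖ ≤ 1)
    {ι : Type} [Fintype ι] {d : ι → ℕ} {c : (i : ι) → Fin 2 → Fin (d i + 1) → A} {v : ι → Fin 2 → A}
    {a b : ι → ℕ} {G : (i : ι) → Fin (a i) → Fin 2 → A} {T : (i : ι) → Fin (b i) → Fin 2 → A}
    (hcert : ∀ i, Cert (c i) (G i) (T i))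
    (hT : ∀ i t m, 1 ≤ m → det2 ((hlift (c i))^[m] (T i t)) (T i t) ≠ 0) (hTd : ∀ i, 0 < b i → 2 ≤ d i)
    (horb : ∀ i, InfOrb (c i) (v i)) (hv : ∀ i, ∃ k, IsUnit (v i k)) :
    ∃ (p : ℕ) (_ : Fact p.Prime) (K : Type) (_ : Field K) (_ : NumberField K) (jp : K →+* ℚ_[p]) (σ : A →+* K)
      (N : ℕ) (τ : PadicAlgCl p ≃ₐ[ℚ_[p]] PadicAlgCl p),
      (∀ i, InfOrb (cmap σ (c i)) (vmap σ (v i))) ∧
      (∀ i t (z : Fin 2 → PadicAlgCl p), z ≠ 0 →
        det2 ((hlift (cmap (((al p).comp jp).comp σ) (c i)))^[N] z) (vmap (((al p).comp jp).comp σ) (T i t)) = 0 →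
        det2 (fun k => τ (z k)) z ≠ 0) ∧
      ∃ B : ℕ, ∀ (q : ℕ) [Fact q.Prime], B < q → ∀ ψ' : 𝓞 K →+* ZMod q, ∃ θ : A →+* ℤ_[q], Function.Injective θ ∧
        ∀ (x : A) (n : ℕ) (y : 𝓞 K), (y : K) = n * σ x → ψ' y = n * PadicInt.toZMod (θ x) := by
  classical
  obtain ⟨p, ip, ψ, hBp, hψ, hψ1⟩ := hemb (Finset.univ.sup d)
  have hdp : ∀ i, d i < p := fun i => lt_of_le_of_lt (Finset.le_sup (Finset.mem_univ i)) hBp
  -- the minimal periods
  let E : (i : ι) → Fin (b i) → ℕ → A := fun i t m =>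
    det2 ((hlift (c i))^[m] (T i t)) (T i t)
  have hE : ∀ i t m, E i t m = det2 ((hlift (c i))^[m] (T i t)) (T i t) := fun _ _ _ => rfl
  let mm : (i : ι) → Fin (b i) → ℕ := fun i t =>
    if h : ∃ m, 1 ≤ m ∧ ‖ψ (E i t m)‖ < 1 then Nat.find h else 1
  have hmm : ∀ i t m, 1 ≤ m → ‖ψ (E i t m)‖ < 1 →
      (∀ m', 1 ≤ m' → m' < m → ¬ ‖ψ (E i t m')‖ < 1) → mm i t = m := by
    intro i t m h1 h2 h3
    have hex : ∃ m, 1 ≤ m ∧ ‖ψ (E i t m)‖ < 1 := ⟨m, h1, h2⟩
    have h4 : mm i t = Nat.find hex := dif_pos hex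
    rw [h4, Nat.find_eq_iff]
    exact ⟨⟨h1, h2⟩, fun n hn hP => h3 n hP.1 hn hP.2⟩
  have hmm1 : ∀ i t, 1 ≤ mm i t := by
    intro i t
    by_cases hex : ∃ m, 1 ≤ m ∧ ‖ψ (E i t m)‖ < 1
    · have h4 : mm i t = Nat.find hex := dif_pos hex
      rw [h4]
      exact (Nat.find_spec hex).1
    · have h4 : mm i t = 1 := dif_neg hex
      rw [h4]
  let W : Finset A := (Finset.univ : Finset (Σ i, Fin (b i))).image
    (fun x => E x.1 x.2 (mm x.1 x.2))
  have hW : ∀ x ∈ W, x ≠ 0 := by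
    intro x hx
    obtain ⟨y, _, rfl⟩ := Finset.mem_image.mp hx
    exact hT y.1 y.2 _ (hmm1 y.1 y.2)
  obtain ⟨K, iK, iN, jp, σ, happ, horb', hW', B, hB⟩ := exists_approx hC hgen ψ hψ hψ1
    (fun i n => iter_norm hψ1 (hcert i) (hv i) n) horb W hW
  -- the homomorphism `φ`
  obtain ⟨φ, hφ⟩ : ∃ φ : A →+* ℚ_[p], φ = jp.comp σ := ⟨_, rfl⟩
  have happ' : ∀ x, ‖φ x - ψ x‖ < 1 := by
    intro x
    rw [hφ]
    exact happ x
  have hφ1 : ∀ x, ‖φ x‖ ≤ 1 := by
    intro x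
    have h3 : φ x = (φ x - ψ x) + ψ x := by ring
    rw [h3]
    exact (IsUltrametricDist.norm_add_le_max _ _).trans (max_le (happ' x).le (hψ1 x))
  have hlt : ∀ x, ‖φ x‖ < 1 → ‖ψ x‖ < 1 := by
    intro x hx
    have h3 : ψ x = φ x - (φ x - ψ x) := by ring
    rw [h3, sub_eq_add_neg]
    refine (IsUltrametricDist.norm_add_le_max _ _).trans_lt (max_lt hx ?_)
    rw [norm_neg]
    exact happ' x
  have hgt : ∀ x, ‖ψ x‖ < 1 → ‖φ x‖ < 1 := by
    intro x hx
    have h3 : φ x = (φ x - ψ x) + ψ x := by ring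
    rw [h3]
    exact (IsUltrametricDist.norm_add_le_max _ _).trans_lt (max_lt (happ' x) hx)
  have hdet : ∀ i t m, det2 ((hlift (cmap φ (c i)))^[m] (vmap φ (T i t))) (vmap φ (T i t)) =
      φ (E i t m) := by
    intro i t m
    rw [hE, map_det2, vmap_hlift_iter]
  obtain ⟨N, τ, hτ⟩ := hL p (Σ i, Fin (b i)) (fun x => d x.1)
    (fun x => hTd x.1 (lt_of_le_of_lt (Nat.zero_le _) x.2.isLt)) (fun x => hdp x.1)
    (fun x => cmap φ (c x.1)) (fun x => vmap φ (T x.1 x.2))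
    (fun x => goodRed_of_cert hφ1 (hcert x.1))
    (fun x => by
      obtain ⟨k, hk⟩ := (hcert x.1).unimT x.2
      apply le_antisymm
      · rw [pi_norm_le_iff_of_nonneg zero_le_one]
        intro k
        exact hφ1 _
      · have h1 := norm_le_pi_norm (vmap φ (T x.1 x.2)) k
        have h2 : vmap φ (T x.1 x.2) k = 1 := by
          change φ (T x.1 x.2 k) = 1
          rw [hk, map_one]
        rw [h2, norm_one] at h1
        exact h1)
    (fun x => by
      rcases (hcert x.1).targ x.2 with h | ⟨h1, h2⟩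
      · refine Or.inr ⟨?_, fun m hm hlt1 hmin => ?_⟩
        · change jac (cmap φ (c x.1)) (vmap φ (T x.1 x.2)) = 0
          rw [← map_jac', h, map_zero]
        · have h3 : mm x.1 x.2 = m := by
            refine hmm x.1 x.2 m hm (hlt _ ?_) (fun m' hm' hlt' hcon => ?_)
            · rw [← hdet]
              exact hlt1
            · have h4 := hmin m' hm' hlt'
              rw [hdet] at h4
              have h5 := hgt _ hcon
              rw [h4] at h5
              exact lt_irrefl _ h5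
          rw [hdet, ← h3]
          intro h0
          rw [hφ] at h0
          have h5 : σ (E x.1 x.2 (mm x.1 x.2)) = 0 := by
            apply jp.injective
            rw [map_zero]
            exact h0
          exact hW' _ (Finset.mem_image.mpr ⟨x, Finset.mem_univ _, rfl⟩) h5
      · exact Or.inl (nper_of_targ hφ1 (hcert x.1) x.2 h1 h2))
  refine ⟨p, ip, K, iK, iN, jp, σ, N, τ, horb', ?_, B, hB⟩
  intro i t z hz h0
  subst hφ
  exact hτ ⟨i, t⟩ z hz h0

end Pool.Agent.SNP
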