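import Pool.Agent.SNP.D.Defs
import Pool.Agent.SNP.B.Ext

/-!
# SNP-D-THETA: a good prime from Frobenius' theorem

PROOF. Scaling lemma (private): `(hlift (fun k j => D * c k j))^[n] u = fun k => D ^ (e n) * (hlift c)^[n] u k` with `e n = ∑_{i<n} d^i` (only the existence of an exponent, by induction on `n`, `hlift_smul`), so for `D ≠ 0` in a field, `det2 ((hlift (D c))^[N] u) (D T) = 0 ↔ det2 ((hlift c)^[N] u) T = 0`.
`e_∞ i t = det2 ((hlift (c i))^[N] ![1, 0]) (T i t) ∈ A`: `σ (e_∞ i t) ≠ 0` by `hτ` for `z = ![1, 0]` (`τ` fixes `z`, `det2 z z = 0`). Let `X ⊆ A` be the finite set of all `c i k j`, `T i t k`, `e_∞ i t` and `E`. There is `D : ℕ`, `D ≥ 1`, such that `D σ(x)` is an algebraic integer for all `x ∈ X` (for every element of `K` a positive multiple is an algebraic integer: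
`exists_integral_multiple` over `ℤ`, `IsIntegral`; take the product (absolute values) over `X`). So we get `y x : 𝓞 K` with `(y x : K) = D * σ x` for `x ∈ X`. `c' i k j = y (c i k j)`, `T' i t k = y (T i t k)`.
`g = ∏ i, ∏ t, det2 ((hlift (fun k j => C (c' i k j)))^[N] ![X, 1]) (fun k => C (T' i t k)) ∈ (𝓞 K)[X]`. For a ring homomorphism `h : 𝓞 K →+* Ω` and `x : Ω`, `(g.map h).eval x = ∏ i, ∏ t, det2 ((hlift (cmap h (c' i)))^[N] ![x, 1]) (vmap h (T' i t))` (`eval_map`, `eval₂RingHom`, `map_prod`, `map_det2`, `vmap_hlift_iter`).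
`FROB` with `Ω = PadicAlgCl p`, `j = (al p).comp jp`, `τ.toRingEquiv` (`τ (al p x) = al p x`: `AlgEquiv.commutes`). If `(g.map (j.comp (algebraMap (𝓞 K) K))).eval x = 0`, some factor vanishes; `j (c') = D * (j σ c)`, so by the scaling lemma `hτ` applies to `z = ![x, 1]`: `det2 (τ z) z = τ x - x ≠ 0`.
So for every bound `B'` there are a prime `q > B'` and `ψ' : 𝓞 K →+* ZMod q` such that `g` has no root mod `ψ'`. Take `B' ≥ B`, `≥ D`, and such that `ψ' (y e) ≠ 0` for the finitely many nonzero elements `y e`, `e ∈ E` or `e = e_∞ i t` (see `B/Ext.lean`, `dvd_int`: nonzero elements of `𝓞 K` divide nonzero integers; the integer is not divisible by `q` if `q` is large). `θ` from `hB`, `θ' = toZMod ∘ θ`;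
`ψ' (y x) = D * θ' x` for `x ∈ X`, `(D : ZMod q) ≠ 0`. So `θ' e ≠ 0` for `e ∈ E` and `e = e_∞ i t`, and for `u ≠ 0`: if `u 1 ≠ 0`, `u = fun k => u 1 * ![u 0 / u 1, 1] k`; `ψ' g` does not vanish at `u 0 / u 1`, so no factor vanishes; scaling (`hlift_iter_smul` and the scaling lemma) gives the claim. If `u 1 = 0`, `u = fun k => u 0 * ![1, 0] k`: `θ' (e_∞ i t) ≠ 0`.
-/

set_option autoImplicit false

namespace Pool.Agent.SNP

open Pool.Agent.Helper59.DML NumberField

private theorem hl_scale {F : Type*} [Field F] {d : ℕ} (c : Fin 2 → Fin (d + 1) → F) (D : F)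
    (u : Fin 2 → F) (n : ℕ) :
    ∃ e : ℕ, (hlift (fun k j => D * c k j))^[n] u = fun k => D ^ e * (hlift c)^[n] u k := by
  induction n with
  | zero => exact ⟨0, by simp⟩
  | succ n ih =>
    obtain ⟨e, he⟩ := ih
    refine ⟨e * d + 1, ?_⟩
    rw [Function.iterate_succ_apply', he, hlift_smul, Function.iterate_succ_apply']
    funext k
    have : hlift (fun k j => D * c k j) ((hlift c)^[n] u) k = D * hlift c ((hlift c)^[n] u) k := by
      simp only [hlift, form, Finset.mul_sum, mul_assoc]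
    rw [this, pow_succ, pow_mul]
    ring

private theorem scale_det {F : Type*} [Field F] {d : ℕ} (c : Fin 2 → Fin (d + 1) → F) {D : F}
    (hD : D ≠ 0) (u T : Fin 2 → F) (N : ℕ) :
    det2 ((hlift (fun k j => D * c k j))^[N] u) (fun k => D * T k) = 0 ↔
      det2 ((hlift c)^[N] u) T = 0 := by
  obtain ⟨e, he⟩ := hl_scale c D u N
  rw [he, det2_smul_right, det2_smul_left]
  simp [hD]

open Polynomial in
private noncomputable def gpol {R : Type} [CommRing R] {ι : Type} [Fintype ι] {d b : ι → ℕ}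
    (c : (i : ι) → Fin 2 → Fin (d i + 1) → R) (T : (i : ι) → Fin (b i) → Fin 2 → R) (N : ℕ) :
    Polynomial R :=
  ∏ i, ∏ t, det2 ((hlift (cmap (C : R →+* R[X]) (c i)))^[N] ![X, 1]) (vmap (C : R →+* R[X]) (T i t))

open Polynomial in
private theorem gpol_eval {R : Type} {Ω : Type} [CommRing R] [CommRing Ω] {ι : Type} [Fintype ι]
    {d b : ι → ℕ} (c : (i : ι) → Fin 2 → Fin (d i + 1) → R) (T : (i : ι) → Fin (b i) → Fin 2 → R)
    (N : ℕ) (h : R →+* Ω) (x : Ω) :
    ((gpol c T N).map h).eval x =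
      ∏ i, ∏ t, det2 ((hlift (cmap h (c i)))^[N] ![x, 1]) (vmap h (T i t)) := by
  rw [eval_map, ← coe_eval₂RingHom]
  unfold gpol
  rw [map_prod]
  refine Finset.prod_congr rfl fun i _ => ?_
  rw [map_prod]
  refine Finset.prod_congr rfl fun t _ => ?_
  rw [map_det2, vmap_hlift_iter, cmap_cmap, vmap_vmap]
  have h1 : (eval₂RingHom h x).comp C = h := by
    ext a
    simp
  have h2 : vmap (eval₂RingHom h x) ![X, 1] = ![x, 1] := by
    funext k
    fin_cases k
    · simp [vmap]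
    · simp [vmap]
  rw [h1, h2]

theorem exists_theta (hF : FROB) {A : Type} [CommRing A] {p : ℕ} [Fact p.Prime] {K : Type} [Field K] [NumberField K]
    (jp : K →+* ℚ_[p]) (σ : A →+* K)
    {ι : Type} [Fintype ι] {d : ι → ℕ} {c : (i : ι) → Fin 2 → Fin (d i + 1) → A}
    {b : ι → ℕ} {T : (i : ι) → Fin (b i) → Fin 2 → A} {N : ℕ} {τ : PadicAlgCl p ≃ₐ[ℚ_[p]] PadicAlgCl p}
    (hτ : ∀ i t (z : Fin 2 → PadicAlgCl p), z ≠ 0 →
        det2 ((hlift (cmap (((al p).comp jp).comp σ) (c i)))^[N] z) (vmap (((al p).comp jp).comp σ) (T i t)) = 0 →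
        det2 (fun k => τ (z k)) z ≠ 0)
    {B : ℕ} (hB : ∀ (q : ℕ) [Fact q.Prime], B < q → ∀ ψ' : 𝓞 K →+* ZMod q, ∃ θ : A →+* ℤ_[q], Function.Injective θ ∧
        ∀ (x : A) (n : ℕ) (y : 𝓞 K), (y : K) = n * σ x → ψ' y = n * PadicInt.toZMod (θ x))
    (E : Finset A) (hE : ∀ x ∈ E, σ x ≠ 0) :
    ∃ (q : ℕ) (_ : Fact q.Prime) (θ : A →+* ℤ_[q]), Function.Injective θ ∧
      (∀ x ∈ E, PadicInt.toZMod (θ x) ≠ 0) ∧
      ∀ i t (u : Fin 2 → ZMod q), u ≠ 0 → det2 ((hlift (cmap ((PadicInt.toZMod (p := q)).comp θ) (c i)))^[N] u)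
        (vmap ((PadicInt.toZMod (p := q)).comp θ) (T i t)) ≠ 0 := by
  classical
  let einf : (i : ι) → Fin (b i) → A := fun i t => det2 ((hlift (c i))^[N] ![1, 0]) (T i t)
  let h0 : A →+* PadicAlgCl p := ((al p).comp jp).comp σ
  have hinf : ∀ i t, σ (einf i t) ≠ 0 := by
    intro i t h
    have h1 : h0 (einf i t) = 0 := by
      show (al p) (jp (σ (einf i t))) = 0
      rw [h, map_zero, map_zero]
    have h2 : vmap h0 ![1, 0] = ![1, 0] := by
      funext k
      fin_cases k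
      · simp [vmap]
      · simp [vmap]
    have h3 : (![1, 0] : Fin 2 → PadicAlgCl p) ≠ 0 := by
      intro h4
      have := congrFun h4 0
      simp at this
    rw [map_det2, vmap_hlift_iter, h2] at h1
    refine hτ i t ![1, 0] h3 h1 ?_
    simp [det2]
  let E' : Finset A := (Finset.univ.image fun q : (Σ i : ι, Fin (b i)) => einf q.1 q.2) ∪ E
  let X0 : Finset A := (Finset.univ.image fun q : (Σ i : ι, Fin 2 × Fin (d i + 1)) => c q.1 q.2.1 q.2.2) ∪
    (Finset.univ.image fun q : (Σ i : ι, Fin (b i) × Fin 2) => T q.1 q.2.1 q.2.2) ∪ E'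
  have hE' : ∀ x ∈ E', σ x ≠ 0 := by
    intro x hx
    rcases Finset.mem_union.1 hx with hx | hx
    · obtain ⟨q, -, rfl⟩ := Finset.mem_image.1 hx
      exact hinf q.1 q.2
    · exact hE x hx
  have hcX : ∀ i k j, c i k j ∈ X0 := fun i k j =>
    Finset.mem_union_left _ (Finset.mem_union_left _ (Finset.mem_image.2 ⟨⟨i, (k, j)⟩, Finset.mem_univ _, rfl⟩))
  have hTX : ∀ i t k, T i t k ∈ X0 := fun i t k =>
    Finset.mem_union_left _ (Finset.mem_union_right _ (Finset.mem_image.2 ⟨⟨i, (t, k)⟩, Finset.mem_univ _, rfl⟩))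
  have heX : ∀ x ∈ E', x ∈ X0 := fun x hx => Finset.mem_union_right _ hx
  have heE : ∀ i t, einf i t ∈ E' := fun i t =>
    Finset.mem_union_left _ (Finset.mem_image.2 ⟨⟨i, t⟩, Finset.mem_univ _, rfl⟩)
  have : Algebra.IsAlgebraic ℤ K :=
    (IsFractionRing.comap_isAlgebraic_iff (A := ℤ) (K := ℚ) (C := K)).2 inferInstance
  obtain ⟨r, hr, hint⟩ := Algebra.IsAlgebraic.exists_integral_multiples ℤ (X0.image σ)
  obtain ⟨D, hD0, hD⟩ : ∃ D : ℕ, D ≠ 0 ∧ ∀ x ∈ X0, ∃ y : 𝓞 K, (y : K) = D * σ x := by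
    refine ⟨r.natAbs, Int.natAbs_ne_zero.2 hr, fun x hx => ?_⟩
    have h1 : IsIntegral ℤ (((r.natAbs : ℕ) : K) * σ x) := by
      have h2 := hint (σ x) (Finset.mem_image_of_mem σ hx)
      rw [zsmul_eq_mul] at h2
      rcases Int.natAbs_eq r with h3 | h3
      · rw [h3] at h2
        simpa using h2
      · rw [h3] at h2
        have h4 := h2.neg
        simpa using h4
    exact ⟨⟨_, h1⟩, rfl⟩
  have hy0 : ∀ x : A, ∃ y : 𝓞 K, x ∈ X0 → (y : K) = D * σ x := by
    intro x
    by_cases hx : x ∈ X0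
    · obtain ⟨y, hy⟩ := hD x hx
      exact ⟨y, fun _ => hy⟩
    · exact ⟨0, fun h => absurd h hx⟩
  choose y hy using hy0
  have hyne : ∀ x ∈ E', y x ≠ 0 := by
    intro x hx h
    have h1 := hy x (heX x hx)
    rw [h] at h1
    have h2 : (D : K) * σ x = 0 := by rw [← h1]; simp
    rcases mul_eq_zero.1 h2 with h3 | h3
    · exact hD0 (by exact_mod_cast h3)
    · exact hE' x hx h3
  have hn0 : ∀ x : A, ∃ n : ℕ, x ∈ E' → (n ≠ 0 ∧ ∀ p : ℕ, ¬ p ∣ n → ∀ (k : Type) [Field k] [CharP k p] (f : 𝓞 K →+* k),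
      f (y x) ≠ 0) := by
    intro x
    by_cases hx : x ∈ E'
    · obtain ⟨n, h1, h2⟩ := Pool.Agent.SNP.B.dvd_int (hyne x hx)
      exact ⟨n, fun _ => ⟨h1, h2⟩⟩
    · exact ⟨0, fun h => absurd h hx⟩
  choose n hn using hn0
  let c' : (i : ι) → Fin 2 → Fin (d i + 1) → 𝓞 K := fun i k j => y (c i k j)
  let T' : (i : ι) → Fin (b i) → Fin 2 → 𝓞 K := fun i t k => y (T i t k)
  let jj : K →+* PadicAlgCl p := (al p).comp jp
  obtain ⟨q, hq, hBq, ψ, hψ⟩ := hF K (PadicAlgCl p) jj τ.toRingEquiv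
    (fun x => τ.commutes (jp x)) (gpol c' T' N) (by
      intro x hx h
      rw [gpol_eval] at hx
      obtain ⟨i, -, hi⟩ := Finset.prod_eq_zero_iff.1 hx
      obtain ⟨t, -, ht⟩ := Finset.prod_eq_zero_iff.1 hi
      have e1 : cmap (jj.comp (algebraMap (𝓞 K) K)) (c' i) =
          fun k j => ((D : ℕ) : PadicAlgCl p) * cmap h0 (c i) k j := by
        funext k j
        show jj (y (c i k j) : K) = _
        rw [hy _ (hcX i k j), map_mul, map_natCast]
        rfl
      have e2 : vmap (jj.comp (algebraMap (𝓞 K) K)) (T' i t) =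
          fun k => ((D : ℕ) : PadicAlgCl p) * vmap h0 (T i t) k := by
        funext k
        show jj (y (T i t k) : K) = _
        rw [hy _ (hTX i t k), map_mul, map_natCast]
        rfl
      have hDp : ((D : ℕ) : PadicAlgCl p) ≠ 0 := by
        exact_mod_cast hD0
      rw [e1, e2, scale_det _ hDp] at ht
      have h3 : (![x, 1] : Fin 2 → PadicAlgCl p) ≠ 0 := by
        intro h4
        have := congrFun h4 1
        simp at this
      refine hτ i t ![x, 1] h3 ht ?_
      have h5 : τ x = x := h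
      simp [det2, h5])
    (B + D + ∑ x ∈ E', n x)
  have : Fact q.Prime := ⟨hq⟩
  obtain ⟨θ, hθ, hθ2⟩ := hB q (by omega) ψ
  have hyθ : ∀ x ∈ X0, ψ (y x) = (D : ZMod q) * PadicInt.toZMod (θ x) := fun x hx =>
    hθ2 x D (y x) (hy x hx)
  have hDq : (D : ZMod q) ≠ 0 := by
    intro h
    rw [ZMod.natCast_eq_zero_iff] at h
    have := Nat.le_of_dvd (Nat.pos_of_ne_zero hD0) h
    omega
  have hEne : ∀ x ∈ E', PadicInt.toZMod (θ x) ≠ 0 := by
    intro x hx h
    have h1 := hyθ x (heX x hx)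
    rw [h, mul_zero] at h1
    obtain ⟨hnx, hnx2⟩ := hn x hx
    refine hnx2 q ?_ (ZMod q) ψ h1
    intro hd
    have h2 := Nat.le_of_dvd (Nat.pos_of_ne_zero hnx) hd
    have h3 : n x ≤ ∑ x ∈ E', n x := Finset.single_le_sum (fun _ _ => Nat.zero_le _) hx
    omega
  refine ⟨q, ⟨hq⟩, θ, hθ, fun x hx => hEne x (Finset.mem_union_right _ hx), ?_⟩
  intro i t u hu hdet
  by_cases hu1 : u 1 = 0
  · have hu0 : u 0 ≠ 0 := by
      intro h
      apply hu
      funext k
      fin_cases k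
      · exact h
      · exact hu1
    have hueq : u = fun k => u 0 * (![1, 0] : Fin 2 → ZMod q) k := by
      funext k
      fin_cases k
      · simp
      · simp [hu1]
    rw [hueq, hlift_iter_smul, det2_smul_left] at hdet
    rcases mul_eq_zero.1 hdet with h | h
    · exact pow_ne_zero _ hu0 h
    · have h2 : vmap ((PadicInt.toZMod (p := q)).comp θ) ![1, 0] = ![1, 0] := by
        funext k
        fin_cases k
        · simp [vmap]
        · simp [vmap]
      have h3 := map_det2 ((PadicInt.toZMod (p := q)).comp θ) ((hlift (c i))^[N] ![1, 0]) (T i t)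
      rw [vmap_hlift_iter, h2, h] at h3
      exact hEne _ (heE i t) h3
  · have hueq : u = fun k => u 1 * (![u 0 / u 1, 1] : Fin 2 → ZMod q) k := by
      funext k
      fin_cases k
      · simp only [Fin.zero_eta, Matrix.cons_val_zero]
        field_simp
      · simp
    rw [hueq, hlift_iter_smul, det2_smul_left] at hdet
    rcases mul_eq_zero.1 hdet with h | h
    · exact pow_ne_zero _ hu1 h
    · have e1 : cmap ψ (c' i) =
          fun k j => ((D : ℕ) : ZMod q) * cmap ((PadicInt.toZMod (p := q)).comp θ) (c i) k j := by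
        funext k j
        exact hyθ _ (hcX i k j)
      have e2 : vmap ψ (T' i t) =
          fun k => ((D : ℕ) : ZMod q) * vmap ((PadicInt.toZMod (p := q)).comp θ) (T i t) k := by
        funext k
        exact hyθ _ (hTX i t k)
      have h1 := (scale_det (cmap ((PadicInt.toZMod (p := q)).comp θ) (c i)) hDq ![u 0 / u 1, 1]
        (vmap ((PadicInt.toZMod (p := q)).comp θ) (T i t)) N).2 h
      rw [← e1, ← e2] at h1
      apply hψ (u 0 / u 1)
      rw [gpol_eval]
      exact Finset.prod_eq_zero (Finset.mem_univ i) (Finset.prod_eq_zero (Finset.mem_univ t) h1)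

end Pool.Agent.SNP
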