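import Pool.Agent.SNP.D.Cert
import Pool.Agent.SNP.D.Emb
import Pool.Agent.SNP.D.Stage
import Pool.Agent.SNP.D.Theta
import Pool.Agent.SNP.D.Hit
import Pool.Agent.SNP.D.Finish

/-!
# SNP-D-MAIN: the main theorem from the three blocks
-/

set_option autoImplicit false

namespace Pool.Agent.SNP

open Pool.Agent.Helper59.DML Pool.Agent.Helper59.UQ NumberField

theorem main_of (hL : LOC) (hF : FROB) (hC : LIFT) : MAIN := by
  classical
  intro ι _ d hd c hc v hv horb H hH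
  choose a b G T S hcS hGS hTS hTper hTd hcert using fun i => exists_cert (hd i) (hc i)
  have hk : ∀ i, ∃ k, v i k ≠ 0 := by
    intro i
    by_contra hcon
    push Not at hcon
    exact hv i (funext hcon)
  choose k₀ hk₀ using hk
  -- the ring
  obtain ⟨S', hS'⟩ : ∃ S' : Finset ℂ, S' = (Finset.univ.biUnion S ∪
      Finset.univ.image (fun x : ι × Fin 2 => v x.1 x.2)) ∪ Finset.univ.image (fun i => (v i (k₀ i))⁻¹) := ⟨_, rfl⟩
  have hSS : ∀ i x, x ∈ S i → x ∈ S' := by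
    intro i x hx
    rw [hS', Finset.mem_union, Finset.mem_union, Finset.mem_biUnion]
    exact Or.inl (Or.inl ⟨i, Finset.mem_univ _, hx⟩)
  have hvS : ∀ i k, v i k ∈ S' := by
    intro i k
    rw [hS', Finset.mem_union, Finset.mem_union]
    exact Or.inl (Or.inr (Finset.mem_image.2 ⟨(i, k), Finset.mem_univ _, rfl⟩))
  have hviS : ∀ i, (v i (k₀ i))⁻¹ ∈ S' := by
    intro i
    rw [hS', Finset.mem_union]
    exact Or.inr (Finset.mem_image.2 ⟨i, Finset.mem_univ _, rfl⟩)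
  obtain ⟨⟨gen, hgen⟩, hemb⟩ := embed_ring S'
  have hmem : ∀ x, x ∈ S' → x ∈ Algebra.adjoin ℤ (S' : Set ℂ) := fun x hx => Algebra.subset_adjoin hx
  let j : Algebra.adjoin ℤ (S' : Set ℂ) →+* ℂ := algebraMap _ _
  have hj : Function.Injective j := Subtype.val_injective
  -- the data over the ring
  let c₀ : (i : ι) → Fin 2 → Fin (d i + 1) → Algebra.adjoin ℤ (S' : Set ℂ) :=
    fun i k l => ⟨c i k l, hmem _ (hSS i _ (hcS i k l))⟩
  let G₀ : (i : ι) → Fin (a i) → Fin 2 → Algebra.adjoin ℤ (S' : Set ℂ) :=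
    fun i g k => ⟨G i g k, hmem _ (hSS i _ (hGS i g k))⟩
  let T₀ : (i : ι) → Fin (b i) → Fin 2 → Algebra.adjoin ℤ (S' : Set ℂ) :=
    fun i t k => ⟨T i t k, hmem _ (hSS i _ (hTS i t k))⟩
  let v₀ : ι → Fin 2 → Algebra.adjoin ℤ (S' : Set ℂ) := fun i k => ⟨v i k, hmem _ (hvS i k)⟩
  have hc₀ : ∀ i, cmap j (c₀ i) = c i := fun i => rfl
  have hG₀ : ∀ i g, vmap j (G₀ i g) = G i g := fun i g => rfl
  have hT₀ : ∀ i t, vmap j (T₀ i t) = T i t := fun i t => rfl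
  have hv₀ : ∀ i, vmap j (v₀ i) = v i := fun i => rfl
  have hcert₀ : ∀ i, Cert (c₀ i) (G₀ i) (T₀ i) := fun i =>
    hcert i (Algebra.adjoin ℤ (S' : Set ℂ)) j hj (fun x hx => ⟨⟨x, hmem _ (hSS i x hx)⟩, rfl⟩) (c₀ i) (G₀ i) (T₀ i)
      (hc₀ i) (hG₀ i) (hT₀ i)
  have hunit : ∀ i, IsUnit (v₀ i (k₀ i)) := by
    intro i
    refine IsUnit.of_mul_eq_one ⟨(v i (k₀ i))⁻¹, hmem _ (hviS i)⟩ ?_
    apply hj
    show v i (k₀ i) * (v i (k₀ i))⁻¹ = 1
    exact mul_inv_cancel₀ (hk₀ i)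
  have hper₀ : ∀ i t m, 1 ≤ m → det2 ((hlift (c₀ i))^[m] (T₀ i t)) (T₀ i t) ≠ 0 := by
    intro i t m hm h0
    refine hTper i t m hm ?_
    have h1 := congrArg j h0
    rw [map_zero, map_det2, vmap_hlift_iter, hc₀, hT₀] at h1
    exact h1
  have horb₀ : ∀ i, InfOrb (c₀ i) (v₀ i) := by
    intro i m n hmn h0
    refine horb i m n hmn ?_
    have h1 := congrArg j h0
    rw [map_zero, map_det2, vmap_hlift_iter, vmap_hlift_iter, hc₀, hv₀] at h1
    exact h1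
  obtain ⟨p, hp, K, hK, hNF, jp, σ, N, τ, hσ, hτ, B, hB⟩ := stage hL hC hgen hemb hcert₀ hper₀ hTd horb₀
    (fun i => ⟨k₀ i, hunit i⟩)
  obtain ⟨E, hE⟩ : ∃ E : Finset (Algebra.adjoin ℤ (S' : Set ℂ)), E = Finset.univ.image
      (fun x : (Σ i : ι, Fin (a i)) => det2 ((hlift (c₀ x.1))^[N] (v₀ x.1)) (G₀ x.1 x.2)) := ⟨_, rfl⟩
  obtain ⟨q, hq, θ, hθ, hθE, hθT⟩ := exists_theta hF jp σ hτ hB E (by
    intro x hx
    rw [hE, Finset.mem_image] at hx
    obtain ⟨⟨i, g⟩, -, rfl⟩ := hx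
    exact hit_ne σ (hcert₀ i) (hσ i) N g)
  have hno := fun i => no_crit (hcert₀ i) ((PadicInt.toZMod (p := q)).comp θ) (v := v₀ i) (N := N) (by
    intro h0
    have h1 := (hunit i).map ((PadicInt.toZMod (p := q)).comp θ)
    have h2 : ((PadicInt.toZMod (p := q)).comp θ) (v₀ i (k₀ i)) = 0 := congrFun h0 (k₀ i)
    rw [h2] at h1
    exact not_isUnit_zero h1) (fun g => hθE _ (by
      rw [hE]
      exact Finset.mem_image.2 ⟨⟨i, g⟩, Finset.mem_univ _, rfl⟩)) (hθT i)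
  exact finish j hj θ hθ (fun i => (hno i).1) (N := N) (fun i => (hno i).2) H hH

end Pool.Agent.SNP
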