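import Pool.Agent.SNP.D.Defs

/-!
# SNP-D-GEN: a factorisation of a form over `ℂ` is valid for all homomorphisms from the ring generated by the coefficients

PROOF. In the polynomial ring `MvPolynomial (Fin 2) A` let `L = form (fun j => C (e j)) X`, `R = C κ * ∏ j, det2 X (fun k => C (x j k))` (`X : Fin 2 → MvPolynomial (Fin 2) A`, `k ↦ X k`). For every ring homomorphism `φ : A →+* R'` and `w : Fin 2 → R'`, `eval₂Hom φ w` maps `L` to `form (φ ∘ e) w` (`map_form`, `eval₂Hom_C`, `eval₂Hom_X'`) and `R` to
`φ κ * ∏ j, det2 w (vmap φ (x j))` (`map_prod`, `map_det2`). So it is enough to show `L = R`. `MvPolynomial.map i` is injective (`MvPolynomial.map_injective`), and `map i L = map i R` by `MvPolynomial.funext` (`ℂ` is infinite): `eval w (map i L) = eval₂ i w L` (`MvPolynomial.eval_map`) `= form (i ∘ e) w`, the same for `R`, and `h`.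
-/

set_option autoImplicit false

namespace Pool.Agent.SNP

open Pool.Agent.Helper59.DML

theorem split_transfer {A : Type} [CommRing A] {i : A →+* ℂ} (hi : Function.Injective i) {m : ℕ} {e : Fin (m + 1) → A}
    {κ : A} {x : Fin m → Fin 2 → A}
    (h : ∀ w : Fin 2 → ℂ, form (fun j => i (e j)) w = i κ * ∏ j, det2 w (vmap i (x j)))
    {R : Type} [CommRing R] (φ : A →+* R) (w : Fin 2 → R) :
    form (fun j => φ (e j)) w = φ κ * ∏ j, det2 w (vmap φ (x j)) := by
  -- the two sides as polynomials over `A`
  have hL : ∀ {R' : Type} [CommRing R'] (ψ : A →+* R') (v : Fin 2 → R'),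
      MvPolynomial.eval₂Hom ψ v (form (fun j => (MvPolynomial.C (e j) : MvPolynomial (Fin 2) A))
        (fun k => MvPolynomial.X k)) = form (fun j => ψ (e j)) v := by
    intro R' _ ψ v
    rw [map_form]
    simp only [MvPolynomial.eval₂Hom_C, MvPolynomial.eval₂Hom_X']
  have hR : ∀ {R' : Type} [CommRing R'] (ψ : A →+* R') (v : Fin 2 → R'),
      MvPolynomial.eval₂Hom ψ v ((MvPolynomial.C κ : MvPolynomial (Fin 2) A) *
        ∏ j, det2 (fun k => MvPolynomial.X k) (fun k => MvPolynomial.C (x j k))) =
        ψ κ * ∏ j, det2 v (vmap ψ (x j)) := by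
    intro R' _ ψ v
    rw [map_mul, map_prod, MvPolynomial.eval₂Hom_C]
    congr 1
    refine Finset.prod_congr rfl (fun j _ => ?_)
    rw [map_det2]
    have h1 : vmap (MvPolynomial.eval₂Hom ψ v) (fun k => (MvPolynomial.X k : MvPolynomial (Fin 2) A)) = v := by
      funext k
      exact MvPolynomial.eval₂Hom_X' ψ v k
    have h2 : vmap (MvPolynomial.eval₂Hom ψ v) (fun k => (MvPolynomial.C (x j k) : MvPolynomial (Fin 2) A)) =
        vmap ψ (x j) := by
      funext k
      exact MvPolynomial.eval₂Hom_C ψ v (x j k)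
    rw [h1, h2]
  have hLR : (form (fun j => (MvPolynomial.C (e j) : MvPolynomial (Fin 2) A)) (fun k => MvPolynomial.X k)) =
      (MvPolynomial.C κ : MvPolynomial (Fin 2) A) *
        ∏ j, det2 (fun k => MvPolynomial.X k) (fun k => MvPolynomial.C (x j k)) := by
    apply MvPolynomial.map_injective i hi
    apply MvPolynomial.funext
    intro v
    rw [MvPolynomial.eval_map, MvPolynomial.eval_map]
    have h1 := hL i v
    have h2 := hR i v
    rw [MvPolynomial.coe_eval₂Hom] at h1 h2
    rw [h1, h2]
    exact h v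
  rw [← hL φ w, hLR, hR φ w]

end Pool.Agent.SNP
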