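import Pool.Agent.SNP.D.Crit
import Pool.Agent.SNP.D.Gen

/-!
# SNP-D-CERT: certificates for a rational map over `ℂ`

PROOF. `exists_sets`: Finsets `G', T'`; enumerate them: `a = G'.card`, `G = fun g => (G'.equivFin.symm g : _)`, the same for `T`. Factorisations over `ℂ` (`form_split`): `form (c 0) w = α ∏ det2 w (a_j)`, `form (c 1) w = β ∏ det2 w (b_j)` (`c 0 ≠ 0`: otherwise `form (c 1)` has a zero `u ≠ 0`, by `form_split` if `c 1 ≠ 0` and `d ≥ 1` (`u = b_0`), so `hlift c u = 0`; the same for `c 1 ≠ 0`);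
`det2 (a_j) (b_k) ≠ 0` (otherwise `a_j ∝ b_k` is a common zero); `jac c w = form (jform c) w = κ ∏ det2 w (z_j)` with `z_j` normalised and `jac c (z_j) = 0`, so `z_j ∈ G' ∪ T'` (if `2 (d - 1) = 0` there is no `j`); for `γ ∈ G'`: `det2 (hlift c w) γ = form (prform c γ) w = κ_γ ∏ det2 w (x_γj)` (`prform c γ ≠ 0`: see `hlift_surj`, or: otherwise `det2 (hlift c w) γ = 0` for all `w`,
take `w` a zero of `form (c 0)`, resp. `form (c 1)`: then `γ` is proportional to `(0, 1)` and to `(1, 0)`), `x_γj ∈ G' ∪ T'`.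
`S` = the finite set of: all `c k j`, coordinates of all `G g`, `T t`, `a_j`, `b_j`; `α, β, κ, κ_γ` and their inverses; the inverses of `det2 (a_j) (b_k)` and of `det2 (T t) (G g)` (for all `t, g`; also if it is `0`, then the inverse is `0`).
Let `A, i, c₀, G₀, T₀` be as in the statement. `hi : x ∈ S → ∃ y : A, i y = x`. Choose preimages of all these elements. If `x x⁻¹ = 1` in `ℂ`, `x ≠ 0`, both in the range, then the preimages are units (`i` injective). `split_transfer` gives the factorisations for every `φ : A →+* k`.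
`good`: `hlift (cmap φ c₀) u = 0`: `φ α ∏ det2 u (φ a_j) = 0` so `det2 u (φ a_j) = 0` for some `j` (`Finset.prod_eq_zero_iff`), in the same way `det2 u (φ b_k) = 0`; `u ≠ 0`, so `det2 (φ a_j) (φ b_k) = 0` (`det2_trans`, `det2_symm`), but it is the image of a unit. `crit`, `pre`: in the same way from the factorisations; `z_j ∈ G' ∪ T'` means `z_j = G g` or `T t`, so the preimage
of `z_j` in `A` is `G₀ g` or `T₀ t` (use the families `G₀, T₀` themselves as preimages: choose for every `j` an element `x₀ j : Fin 2 → A` which is some `G₀ g` or some `T₀ t` with `vmap i (x₀ j) = z_j`). `inv`, `targ`: apply injectivity of `i` to the relations over `ℂ` (`map_det2`, `vmap_hlift`, `map_jac'`).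
`unimG`: `Nv` means that a coordinate is `1`.
-/

set_option autoImplicit false

namespace Pool.Agent.SNP

open Pool.Agent.Helper59.DML

private theorem ceRoot {A : Type} [CommRing A] {i : A →+* ℂ} (hi : Function.Injective i) {m : ℕ}
    {e : Fin (m + 1) → A} {κ κ' : A} {x : Fin m → Fin 2 → A} (hκ : i κ * i κ' = 1)
    (h : ∀ w : Fin 2 → ℂ, form (fun j => i (e j)) w = i κ * ∏ j, det2 w (vmap i (x j)))
    {k : Type} [Field k] (φ : A →+* k) (w : Fin 2 → k) (h0 : form (fun j => φ (e j)) w = 0) :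
    ∃ j, det2 w (vmap φ (x j)) = 0 := by
  rw [split_transfer hi h φ w] at h0
  have h1 : κ * κ' = 1 := hi (by rw [map_mul, hκ, map_one])
  have h2 : φ κ ≠ 0 := by
    intro h3
    have h4 := congrArg φ h1
    rw [map_mul, h3, zero_mul, map_one] at h4
    exact zero_ne_one h4
  rcases mul_eq_zero.1 h0 with h3 | h3
  · exact absurd h3 h2
  · obtain ⟨j, -, hj⟩ := Finset.prod_eq_zero_iff.1 h3
    exact ⟨j, hj⟩

private theorem cePr {d : ℕ} (hd : 1 ≤ d) {c : Fin 2 → Fin (d + 1) → ℂ}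
    (hc : ∀ u : Fin 2 → ℂ, u ≠ 0 → hlift c u ≠ 0) {γ : Fin 2 → ℂ} (hγ : γ ≠ 0) : prform c γ ≠ 0 := by
  intro h0
  have hz : ∀ w, det2 (hlift c w) γ = 0 := fun w => by
    rw [pre_form, h0]
    simp [form]
  have key : ∀ y : Fin 2 → ℂ, y ≠ 0 → det2 y γ = 0 := by
    intro y hy
    obtain ⟨z, hz0, hz1⟩ := hlift_surj hd hc 1 y hy
    have hz2 : det2 (hlift c z) y = 0 := by simpa using hz1
    exact det2_trans (hc z hz0) (det2_symm hz2) (hz z)
  apply hγ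
  have h1 := key ![1, 0] (by intro h; simpa using congrFun h 0)
  have h2 := key ![0, 1] (by intro h; simpa using congrFun h 1)
  simp [det2] at h1 h2
  ext k
  fin_cases k
  · exact h2
  · exact h1

private theorem ceC0 {d : ℕ} (hd : 1 ≤ d) {c : Fin 2 → Fin (d + 1) → ℂ}
    (hc : ∀ u : Fin 2 → ℂ, u ≠ 0 → hlift c u ≠ 0) : c 0 ≠ 0 := by
  intro h
  apply cePr hd hc (γ := ![0, 1]) (by intro h; simpa using congrFun h 1)
  funext j
  simp [prform, h]

private theorem ceC1 {d : ℕ} (hd : 1 ≤ d) {c : Fin 2 → Fin (d + 1) → ℂ}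
    (hc : ∀ u : Fin 2 → ℂ, u ≠ 0 → hlift c u ≠ 0) : c 1 ≠ 0 := by
  intro h
  apply cePr hd hc (γ := ![1, 0]) (by intro h; simpa using congrFun h 0)
  funext j
  simp [prform, h]

private theorem ceOne {x : Fin 2 → ℂ} (h : Nv x) : ∃ k, x k = 1 := by
  rcases h with h | h
  · exact ⟨1, h⟩
  · exact ⟨0, by rw [h]; rfl⟩

theorem exists_cert {d : ℕ} (hd : 1 ≤ d) {c : Fin 2 → Fin (d + 1) → ℂ} (hc : ∀ u : Fin 2 → ℂ, u ≠ 0 → hlift c u ≠ 0) :
    ∃ (a b : ℕ) (G : Fin a → Fin 2 → ℂ) (T : Fin b → Fin 2 → ℂ) (S : Finset ℂ),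
      (∀ k j, c k j ∈ S) ∧ (∀ g k, G g k ∈ S) ∧ (∀ t k, T t k ∈ S) ∧
      (∀ t m, 1 ≤ m → det2 ((hlift c)^[m] (T t)) (T t) ≠ 0) ∧ (0 < b → 2 ≤ d) ∧
      ∀ (A : Type) [CommRing A] (i : A →+* ℂ), Function.Injective i → (∀ x ∈ S, ∃ y : A, i y = x) →
        ∀ (c₀ : Fin 2 → Fin (d + 1) → A) (G₀ : Fin a → Fin 2 → A) (T₀ : Fin b → Fin 2 → A),
        cmap i c₀ = c → (∀ g, vmap i (G₀ g) = G g) → (∀ t, vmap i (T₀ t) = T t) → Cert c₀ G₀ T₀ := by
  classical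
  obtain ⟨G', T', hG, hT, hcr, hpr, hinv, htg, hnp, hd2⟩ := exists_sets hd hc
  obtain ⟨α, av, hα, hav, hfa⟩ := form_split (ceC0 hd hc)
  obtain ⟨β, bv, hβ, hbv, hfb⟩ := form_split (ceC1 hd hc)
  obtain ⟨κ, z, hκ, hzn, hfz⟩ := form_split (jform_ne_zero hd hc)
  obtain ⟨G, hGm, hGs⟩ : ∃ G : Fin G'.card → Fin 2 → ℂ, (∀ g, G g ∈ G') ∧ ∀ x ∈ G', ∃ g, G g = x :=
    ⟨fun g => (G'.equivFin.symm g : Fin 2 → ℂ), fun g => (G'.equivFin.symm g).2,
      fun x hx => ⟨G'.equivFin ⟨x, hx⟩, by simp⟩⟩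
  obtain ⟨T, hTm, hTs⟩ : ∃ T : Fin T'.card → Fin 2 → ℂ, (∀ g, T g ∈ T') ∧ ∀ x ∈ T', ∃ g, T g = x :=
    ⟨fun g => (T'.equivFin.symm g : Fin 2 → ℂ), fun g => (T'.equivFin.symm g).2,
      fun x hx => ⟨T'.equivFin ⟨x, hx⟩, by simp⟩⟩
  have hp : ∀ g, ∃ (μ : ℂ) (x : Fin d → Fin 2 → ℂ), μ ≠ 0 ∧ (∀ j, Nv (x j)) ∧
      ∀ w : Fin 2 → ℂ, form (prform c (G g)) w = μ * ∏ j, det2 w (x j) :=
    fun g => form_split (cePr hd hc (hG _ (hGm g)).ne_zero)
  choose μ x hμ hxn hfx using hp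
  have hzi : ∀ j, ∃ s : Fin G'.card ⊕ Fin T'.card, z j = Sum.elim G T s := by
    intro j
    have h1 : jac c (z j) = 0 := by
      rw [jac_eq_form hd, hfz]
      exact mul_eq_zero_of_right _ (Finset.prod_eq_zero (Finset.mem_univ j) (det2_self _))
    rcases hcr _ (hzn j) h1 with h | h
    · obtain ⟨g, hg⟩ := hGs _ h
      exact ⟨Sum.inl g, hg.symm⟩
    · obtain ⟨t, ht⟩ := hTs _ h
      exact ⟨Sum.inr t, ht.symm⟩
  choose zi hzi using hzi
  have hxi : ∀ g j, ∃ s : Fin G'.card ⊕ Fin T'.card, x g j = Sum.elim G T s := by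
    intro g j
    have h1 : det2 (hlift c (x g j)) (G g) = 0 := by
      rw [pre_form, hfx]
      exact mul_eq_zero_of_right _ (Finset.prod_eq_zero (Finset.mem_univ j) (det2_self _))
    rcases hpr _ (hGm g) _ (hxn g j) h1 with h | h
    · obtain ⟨g, hg⟩ := hGs _ h
      exact ⟨Sum.inl g, hg.symm⟩
    · obtain ⟨t, ht⟩ := hTs _ h
      exact ⟨Sum.inr t, ht.symm⟩
  choose xi hxi using hxi
  have hab : ∀ j l, det2 (av j) (bv l) ≠ 0 := by
    intro j l h0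
    apply hc (av j) (hav j).ne_zero
    funext k
    fin_cases k
    · show form (c 0) (av j) = 0
      rw [hfa]
      exact mul_eq_zero_of_right _ (Finset.prod_eq_zero (Finset.mem_univ j) (det2_self _))
    · show form (c 1) (av j) = 0
      rw [hfb]
      exact mul_eq_zero_of_right _ (Finset.prod_eq_zero (Finset.mem_univ l) h0)
  have hfin : (Set.range (fun p : Fin 2 × Fin (d + 1) => c p.1 p.2) ∪
      (Set.range (fun p : Fin G'.card × Fin 2 => G p.1 p.2) ∪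
      (Set.range (fun p : Fin T'.card × Fin 2 => T p.1 p.2) ∪
      (Set.range (fun p : Fin d × Fin 2 => av p.1 p.2) ∪
      (Set.range (fun p : Fin d × Fin 2 => bv p.1 p.2) ∪
      (Set.range ![α, α⁻¹, β, β⁻¹, κ, κ⁻¹] ∪
      (Set.range μ ∪ (Set.range (fun g => (μ g)⁻¹) ∪
      (Set.range (fun p : Fin d × Fin d => (det2 (av p.1) (bv p.2))⁻¹) ∪
      Set.range (fun p : Fin T'.card × Fin G'.card => (det2 (T p.1) (G p.2))⁻¹)))))))))).Finite :=
    (Set.finite_range _).union ((Set.finite_range _).union ((Set.finite_range _).union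
      ((Set.finite_range _).union ((Set.finite_range _).union ((Set.finite_range _).union
      ((Set.finite_range _).union ((Set.finite_range _).union ((Set.finite_range _).union
      (Set.finite_range _)))))))))
  refine ⟨G'.card, T'.card, G, T, hfin.toFinset, ?_, ?_, ?_, ?_, ?_, ?_⟩
  · intro k j
    exact hfin.mem_toFinset.2 (Or.inl ⟨(k, j), rfl⟩)
  · intro g k
    exact hfin.mem_toFinset.2 (Or.inr (Or.inl ⟨(g, k), rfl⟩))
  · intro t k
    exact hfin.mem_toFinset.2 (Or.inr (Or.inr (Or.inl ⟨(t, k), rfl⟩)))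
  · intro t m hm
    exact hnp _ (hTm t) m hm
  · intro hb
    exact hd2 (Finset.card_pos.1 hb)
  intro A _ i hi hS c₀ G₀ T₀ hcc hGG hTT
  have hST : ∀ s, vmap i (Sum.elim G₀ T₀ s) = Sum.elim G T s := by
    rintro (g | t)
    · exact hGG g
    · exact hTT t
  obtain ⟨α₀, hα₀⟩ := hS α (hfin.mem_toFinset.2 (Or.inr (Or.inr (Or.inr (Or.inr (Or.inr (Or.inl ⟨0, rfl⟩)))))))
  obtain ⟨α₁, hα₁⟩ := hS α⁻¹ (hfin.mem_toFinset.2 (Or.inr (Or.inr (Or.inr (Or.inr (Or.inr (Or.inl ⟨1, rfl⟩)))))))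
  obtain ⟨β₀, hβ₀⟩ := hS β (hfin.mem_toFinset.2 (Or.inr (Or.inr (Or.inr (Or.inr (Or.inr (Or.inl ⟨2, rfl⟩)))))))
  obtain ⟨β₁, hβ₁⟩ := hS β⁻¹ (hfin.mem_toFinset.2 (Or.inr (Or.inr (Or.inr (Or.inr (Or.inr (Or.inl ⟨3, rfl⟩)))))))
  obtain ⟨κ₀, hκ₀⟩ := hS κ (hfin.mem_toFinset.2 (Or.inr (Or.inr (Or.inr (Or.inr (Or.inr (Or.inl ⟨4, rfl⟩)))))))
  obtain ⟨κ₁, hκ₁⟩ := hS κ⁻¹ (hfin.mem_toFinset.2 (Or.inr (Or.inr (Or.inr (Or.inr (Or.inr (Or.inl ⟨5, rfl⟩)))))))
  have hav0 : ∀ j k, ∃ y, i y = av j k := fun j k =>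
    hS _ (hfin.mem_toFinset.2 (Or.inr (Or.inr (Or.inr (Or.inl ⟨(j, k), rfl⟩)))))
  have hbv0 : ∀ j k, ∃ y, i y = bv j k := fun j k =>
    hS _ (hfin.mem_toFinset.2 (Or.inr (Or.inr (Or.inr (Or.inr (Or.inl ⟨(j, k), rfl⟩))))))
  have hμ0 : ∀ g, ∃ y, i y = μ g := fun g =>
    hS _ (hfin.mem_toFinset.2 (Or.inr (Or.inr (Or.inr (Or.inr (Or.inr (Or.inr (Or.inl ⟨g, rfl⟩))))))))
  have hμ1 : ∀ g, ∃ y, i y = (μ g)⁻¹ := fun g =>
    hS _ (hfin.mem_toFinset.2 (Or.inr (Or.inr (Or.inr (Or.inr (Or.inr (Or.inr (Or.inr (Or.inl ⟨g, rfl⟩)))))))))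
  have hD1 : ∀ j l, ∃ y, i y = (det2 (av j) (bv l))⁻¹ := fun j l =>
    hS _ (hfin.mem_toFinset.2 (Or.inr (Or.inr (Or.inr (Or.inr (Or.inr (Or.inr (Or.inr (Or.inr
      (Or.inl ⟨(j, l), rfl⟩))))))))))
  have hD2 : ∀ t g, ∃ y, i y = (det2 (T t) (G g))⁻¹ := fun t g =>
    hS _ (hfin.mem_toFinset.2 (Or.inr (Or.inr (Or.inr (Or.inr (Or.inr (Or.inr (Or.inr (Or.inr
      (Or.inr ⟨(t, g), rfl⟩))))))))))
  choose av₀ hav₀ using hav0
  choose bv₀ hbv₀ using hbv0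
  choose μ₀ hμ₀ using hμ0
  choose μ₁ hμ₁ using hμ1
  have hava : ∀ j, vmap i (av₀ j) = av j := fun j => funext fun k => hav₀ j k
  have hbva : ∀ j, vmap i (bv₀ j) = bv j := fun j => funext fun k => hbv₀ j k
  have hfa' : ∀ w : Fin 2 → ℂ, form (fun j => i (c₀ 0 j)) w = i α₀ * ∏ j, det2 w (vmap i (av₀ j)) := by
    intro w
    have h1 : (fun j => i (c₀ 0 j)) = c 0 := congrFun hcc 0
    rw [h1, hα₀, hfa]
    simp only [hava]
  have hfb' : ∀ w : Fin 2 → ℂ, form (fun j => i (c₀ 1 j)) w = i β₀ * ∏ j, det2 w (vmap i (bv₀ j)) := by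
    intro w
    have h1 : (fun j => i (c₀ 1 j)) = c 1 := congrFun hcc 1
    rw [h1, hβ₀, hfb]
    simp only [hbva]
  have hfz' : ∀ w : Fin 2 → ℂ, form (fun j => i (jform c₀ j)) w =
      i κ₀ * ∏ j, det2 w (vmap i (Sum.elim G₀ T₀ (zi j))) := by
    intro w
    have h1 : (fun j => i (jform c₀ j)) = jform c := by
      funext j
      rw [← jform_map, hcc]
    rw [h1, hκ₀, hfz]
    simp only [hST, ← hzi]
  have hfx' : ∀ g, ∀ w : Fin 2 → ℂ, form (fun j => i (prform c₀ (G₀ g) j)) w =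
      i (μ₀ g) * ∏ j, det2 w (vmap i (Sum.elim G₀ T₀ (xi g j))) := by
    intro g w
    have h1 : (fun j => i (prform c₀ (G₀ g) j)) = prform c (G g) := by
      funext j
      rw [← prform_map, hcc, hGG]
    rw [h1, hμ₀, hfx]
    simp only [hST, ← hxi]
  have hdet : ∀ v w : Fin 2 → A, det2 (vmap i v) (vmap i w) = 0 → det2 v w = 0 := by
    intro v w h
    apply hi
    rw [map_det2, h, map_zero]
  have hhl : ∀ v : Fin 2 → A, vmap i (hlift c₀ v) = hlift c (vmap i v) := by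
    intro v
    rw [vmap_hlift, hcc]
  refine ⟨?_, ?_, ?_, ?_, ?_, ?_, ?_⟩
  · intro k _ φ u hu h0
    obtain ⟨j, hj⟩ := ceRoot hi (κ' := α₁) (by rw [hα₀, hα₁, mul_inv_cancel₀ hα]) hfa' φ u (congrFun h0 0)
    obtain ⟨l, hl⟩ := ceRoot hi (κ' := β₁) (by rw [hβ₀, hβ₁, mul_inv_cancel₀ hβ]) hfb' φ u (congrFun h0 1)
    have h1 : det2 (vmap φ (av₀ j)) (vmap φ (bv₀ l)) = 0 := det2_trans hu (det2_symm hj) hl
    obtain ⟨y, hy⟩ := hD1 j l
    have h2 : det2 (av₀ j) (bv₀ l) * y = 1 := by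
      apply hi
      rw [map_mul, map_det2, hava, hbva, hy, mul_inv_cancel₀ (hab j l), map_one]
    have h3 := congrArg φ h2
    rw [map_mul, map_det2, h1, zero_mul, map_one] at h3
    exact zero_ne_one h3
  · intro k _ φ u hu h0
    have h1 : form (fun j => φ (jform c₀ j)) u = 0 := by
      rw [jac_eq_form hd] at h0
      rw [← h0]
      congr 1
      funext j
      rw [jform_map]
    obtain ⟨j, hj⟩ := ceRoot hi (κ' := κ₁) (by rw [hκ₀, hκ₁, mul_inv_cancel₀ hκ]) hfz' φ u h1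
    rcases hs : zi j with g | t
    · rw [hs] at hj
      exact Or.inl ⟨g, hj⟩
    · rw [hs] at hj
      exact Or.inr ⟨t, hj⟩
  · intro k _ φ u hu g h0
    have h1 : form (fun j => φ (prform c₀ (G₀ g) j)) u = 0 := by
      rw [pre_form] at h0
      rw [← h0]
      congr 1
      funext j
      rw [prform_map]
    obtain ⟨j, hj⟩ := ceRoot hi (κ' := μ₁ g) (by rw [hμ₀, hμ₁, mul_inv_cancel₀ (hμ g)]) (hfx' g) φ u h1
    rcases hs : xi g j with g' | t
    · rw [hs] at hj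
      exact Or.inl ⟨g', hj⟩
    · rw [hs] at hj
      exact Or.inr ⟨t, hj⟩
  · intro g
    obtain ⟨γ', hγ', h⟩ := hinv _ (hGm g)
    obtain ⟨g', rfl⟩ := hGs _ hγ'
    refine ⟨g', hdet _ _ ?_⟩
    rw [hhl, hGG, hGG]
    exact h
  · intro g
    obtain ⟨k, hk⟩ := ceOne (hG _ (hGm g))
    refine ⟨k, hi ?_⟩
    rw [map_one, ← hk, ← hGG g]
    rfl
  · intro t
    obtain ⟨k, hk⟩ := ceOne (hT _ (hTm t))
    refine ⟨k, hi ?_⟩
    rw [map_one, ← hk, ← hTT t]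
    rfl
  · intro t
    rcases htg _ (hTm t) with h | ⟨⟨γ, hγ, h1⟩, h2⟩
    · left
      apply hi
      rw [map_jac', hcc, hTT, h, map_zero]
    · right
      obtain ⟨g, rfl⟩ := hGs _ hγ
      refine ⟨⟨g, hdet _ _ ?_⟩, ?_⟩
      · rw [hhl, hTT, hGG]
        exact h1
      · intro g'
        obtain ⟨y, hy⟩ := hD2 t g'
        refine IsUnit.of_mul_eq_one y ?_
        apply hi
        rw [map_mul, map_det2, hTT, hGG, hy, mul_inv_cancel₀ (h2 _ (hGm g')), map_one]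

end Pool.Agent.SNP
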