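import Pool.Agent.SNP.D.Defs

/-!
# SNP-D-JACFORM: the reduced Jacobian as a binary form; it does not vanish identically

PROOF. (a) `jac_eq_form`: in `jac c w = ∑ i, ∑ j, c 0 i * c 1 j * (i - j) * (w 0 ^ (i + j - 1) * w 1 ^ ((d - i) + (d - j) - 1))` the terms with `i = j` vanish, in the others `1 ≤ i + j ≤ 2 d - 1`, so with `m = i + j - 1 ≤ 2 (d - 1)` the exponent of `w 1` is `2 (d - 1) - m`. Expand `form (jform c) w`, exchange the sums, and use `Finset.sum_ite_eq`-type lemmas (for fixed `i, j`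
with `i ≠ j` exactly one `m : Fin (2 (d - 1) + 1)` satisfies `i + j = m + 1`; for `i = j` the coefficient is `0`).
(b) `jform_map`: `map_sum`, `split_ifs`. (c) `pre_form`: distribute.
(d) `jform_ne_zero`: suppose `jform c = 0`, so `jac c w = 0` for all `w`. Let `α = ∑ j, C (c 0 j) * X ^ j`, `β = ∑ j, C (c 1 j) * X ^ j` in `K[X]`. `jac c ![x, 1] = α'(x) β(x) - α(x) β'(x)` (termwise; for `i = j = 0` both are `0`), so `α' β = α β'` (`Polynomial.funext`, `K` infinite). `α, β` have no common root `x` (else `hlift c ![x, 1] = 0`), and they are not both zero, so they are coprime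
(`Polynomial.isCoprime_of_...`; e.g. `EuclideanDomain.gcd` has degree `0` because otherwise it has a root, `IsAlgClosed.exists_root`). `α ∣ α' β`, so `α ∣ α'` (`IsCoprime.dvd_of_dvd_mul_right`), so `α' = 0` (degree, `Polynomial.eq_zero_of_dvd_of_natDegree_lt` or `derivative` lemmas), so `natDegree α = 0` (`Polynomial.natDegree_eq_zero_of_derivative_eq_zero`, char zero); the same for `β`. So `c 0 d = c 1 d = 0` (as `d ≥ 1`), and
`hlift c ![1, 0] = fun k => c k d = 0`, contradiction.
-/

set_option autoImplicit false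

namespace Pool.Agent.SNP

open Pool.Agent.Helper59.DML

/-- the coefficients of the reduced Jacobian. -/
def jform {R : Type*} [CommRing R] {d : ℕ} (c : Fin 2 → Fin (d + 1) → R) : Fin (2 * (d - 1) + 1) → R := fun m =>
  ∑ i : Fin (d + 1), ∑ j : Fin (d + 1),
    if (i : ℕ) + (j : ℕ) = (m : ℕ) + 1 then c 0 i * c 1 j * (((i : ℕ) : R) - ((j : ℕ) : R)) else 0

theorem jac_eq_form {R : Type*} [CommRing R] {d : ℕ} (hd : 1 ≤ d) (c : Fin 2 → Fin (d + 1) → R) (w : Fin 2 → R) :
    jac c w = form (jform c) w := by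
  simp only [jac, form, jform, Finset.sum_mul]
  rw [Finset.sum_comm (s := (Finset.univ : Finset (Fin (2 * (d - 1) + 1))))]
  refine Finset.sum_congr rfl fun i _ => ?_
  rw [Finset.sum_comm]
  refine Finset.sum_congr rfl fun j _ => ?_
  have hi : (i : ℕ) ≤ d := Nat.lt_succ_iff.1 i.2
  have hj : (j : ℕ) ≤ d := Nat.lt_succ_iff.1 j.2
  by_cases hij : (i : ℕ) = (j : ℕ)
  · rw [hij]
    simp
  · have hm : (i : ℕ) + (j : ℕ) - 1 < 2 * (d - 1) + 1 := by omega
    rw [Finset.sum_eq_single (⟨(i : ℕ) + (j : ℕ) - 1, hm⟩ : Fin (2 * (d - 1) + 1))]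
    · have h1 : (i : ℕ) + (j : ℕ) = ((i : ℕ) + (j : ℕ) - 1) + 1 := by omega
      have h2 : (d - (i : ℕ)) + (d - (j : ℕ)) - 1 = 2 * (d - 1) - ((i : ℕ) + (j : ℕ) - 1) := by omega
      simp only
      rw [if_pos h1, h2]
      ring
    · intro m _ hmne
      have h3 : ¬ ((i : ℕ) + (j : ℕ) = (m : ℕ) + 1) := by
        intro h
        apply hmne
        ext
        simp only
        omega
      rw [if_neg h3]
      ring
    · intro h
      exact absurd (Finset.mem_univ _) h

theorem jform_map {R S : Type*} [CommRing R] [CommRing S] (φ : R →+* S) {d : ℕ} (c : Fin 2 → Fin (d + 1) → R)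
    (m : Fin (2 * (d - 1) + 1)) : jform (cmap φ c) m = φ (jform c m) := by
  simp only [jform, cmap, map_sum]
  refine Finset.sum_congr rfl fun i _ => Finset.sum_congr rfl fun j _ => ?_
  split_ifs <;> simp

/-- the form `w ↦ det2 (hlift c w) y`. -/
def prform {R : Type*} [CommRing R] {d : ℕ} (c : Fin 2 → Fin (d + 1) → R) (y : Fin 2 → R) : Fin (d + 1) → R := fun j =>
  c 0 j * y 1 - c 1 j * y 0

theorem pre_form {R : Type*} [CommRing R] {d : ℕ} (c : Fin 2 → Fin (d + 1) → R) (y w : Fin 2 → R) :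
    det2 (hlift c w) y = form (prform c y) w := by
  simp only [det2, hlift, form, prform, Finset.sum_mul]
  rw [← Finset.sum_sub_distrib]
  exact Finset.sum_congr rfl fun i _ => by ring

theorem prform_map {R S : Type*} [CommRing R] [CommRing S] (φ : R →+* S) {d : ℕ} (c : Fin 2 → Fin (d + 1) → R)
    (y : Fin 2 → R) (m : Fin (d + 1)) : prform (cmap φ c) (vmap φ y) m = φ (prform c y m) := by
  simp only [prform, cmap, vmap, map_sub, map_mul]

section
open Polynomial

variable {K : Type*} [Field K]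

private noncomputable def dpoly {d : ℕ} (a : Fin (d + 1) → K) : K[X] :=
  ∑ j : Fin (d + 1), C (a j) * X ^ (j : ℕ)

private lemma dpoly_eval {d : ℕ} (a : Fin (d + 1) → K) (x : K) :
    (dpoly a).eval x = ∑ j : Fin (d + 1), a j * x ^ (j : ℕ) := by
  simp only [dpoly, eval_finsetSum, eval_mul, eval_C, eval_pow, eval_X]

private lemma dpoly_der_eval {d : ℕ} (a : Fin (d + 1) → K) (x : K) :
    (derivative (dpoly a)).eval x = ∑ j : Fin (d + 1), a j * ((j : ℕ) : K) * x ^ ((j : ℕ) - 1) := by
  simp only [dpoly, derivative_sum, derivative_C_mul_X_pow, eval_finsetSum, eval_mul, eval_C, eval_pow, eval_X]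

private lemma dpoly_coeff {d : ℕ} (a : Fin (d + 1) → K) :
    (dpoly a).coeff d = a (Fin.last d) := by
  simp only [dpoly, finsetSum_coeff, coeff_C_mul, coeff_X_pow]
  rw [Finset.sum_eq_single (Fin.last d)]
  · simp
  · intro j _ hj
    have : ¬ d = (j : ℕ) := by
      intro h
      apply hj
      ext
      simp [h]
    rw [if_neg this, mul_zero]
  · intro h
    exact absurd (Finset.mem_univ _) h

private lemma form_one {d : ℕ} (a : Fin (d + 1) → K) (x : K) :
    form a ![x, 1] = (dpoly a).eval x := by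
  rw [dpoly_eval]
  simp [form]

private lemma form_inf {d : ℕ} (a : Fin (d + 1) → K) :
    form a ![1, 0] = a (Fin.last d) := by
  simp only [form]
  rw [Finset.sum_eq_single (Fin.last d)]
  · simp
  · intro j _ hj
    have hj2 : (j : ℕ) < d := by
      have h1 := Nat.lt_succ_iff.1 j.2
      refine lt_of_le_of_ne h1 fun h => hj ?_
      ext
      simp [h]
    have h2 : d - (j : ℕ) ≠ 0 := by omega
    simp [h2]
  · intro h
    exact absurd (Finset.mem_univ _) h

end

theorem jform_ne_zero {K : Type*} [Field K] [CharZero K] [IsAlgClosed K] {d : ℕ} (hd : 1 ≤ d)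
    {c : Fin 2 → Fin (d + 1) → K} (hc : ∀ u : Fin 2 → K, u ≠ 0 → hlift c u ≠ 0) : jform c ≠ 0 := by
  open Polynomial in
  intro h0
  have hj : ∀ w : Fin 2 → K, jac c w = 0 := by
    intro w
    rw [jac_eq_form hd, h0]
    simp [form]
  have hW : derivative (dpoly (c 0)) * dpoly (c 1) = dpoly (c 0) * derivative (dpoly (c 1)) := by
    refine Polynomial.funext fun x => ?_
    have h1 := hj ![x, 1]
    rw [eval_mul, eval_mul, dpoly_der_eval, dpoly_der_eval, dpoly_eval, dpoly_eval,
      Finset.sum_mul_sum, Finset.sum_mul_sum, ← sub_eq_zero, ← Finset.sum_sub_distrib, ← h1]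
    simp only [jac, ← Finset.sum_sub_distrib]
    refine Finset.sum_congr rfl fun i _ => Finset.sum_congr rfl fun j _ => ?_
    have e1 : ((i : ℕ) : K) * (x ^ ((i : ℕ) - 1) * x ^ (j : ℕ)) = ((i : ℕ) : K) * x ^ ((i : ℕ) + (j : ℕ) - 1) := by
      rcases Nat.eq_zero_or_pos (i : ℕ) with h | h
      · simp [h]
      · rw [← pow_add]
        congr 2
        omega
    have e2 : ((j : ℕ) : K) * (x ^ (i : ℕ) * x ^ ((j : ℕ) - 1)) = ((j : ℕ) : K) * x ^ ((i : ℕ) + (j : ℕ) - 1) := by
      rcases Nat.eq_zero_or_pos (j : ℕ) with h | h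
      · simp [h]
      · rw [← pow_add]
        congr 2
        omega
    simp only [Matrix.cons_val_zero, Matrix.cons_val_one, Matrix.cons_val_fin_one, one_pow, mul_one]
    linear_combination c 0 i * c 1 j * e1 - c 0 i * c 1 j * e2
  have hco : IsCoprime (dpoly (c 0)) (dpoly (c 1)) := by
    rw [isCoprime_iff_aeval_ne_zero_of_isAlgClosed K K]
    intro x
    by_contra hx
    push Not at hx
    refine hc ![x, 1] (ne_zero_of_one (k := 1) (by simp)) ?_
    ext k
    fin_cases k
    · simpa [hlift, form_one, coe_aeval_eq_eval] using hx.1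
    · simpa [hlift, form_one, coe_aeval_eq_eval] using hx.2
  have hd0 : derivative (dpoly (c 0)) = 0 := by
    rw [← dvd_derivative_iff]
    exact hco.dvd_of_dvd_mul_right (hW ▸ dvd_mul_right _ _)
  have hd1 : derivative (dpoly (c 1)) = 0 := by
    rw [← dvd_derivative_iff]
    exact hco.symm.dvd_of_dvd_mul_left (hW ▸ dvd_mul_left _ _)
  have hl : ∀ k : Fin 2, derivative (dpoly (c k)) = 0 → c k (Fin.last d) = 0 := by
    intro k hk
    have h1 := derivative_eq_zero.1 hk
    rw [← dpoly_coeff (c k)]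
    exact coeff_eq_zero_of_natDegree_lt (by omega)
  refine hc ![1, 0] (ne_zero_of_one (k := 0) (by simp)) ?_
  ext k
  fin_cases k
  · simpa [hlift, form_inf] using hl 0 hd0
  · simpa [hlift, form_inf] using hl 1 hd1

end Pool.Agent.SNP
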