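import Pool.Agent.SNP.D.Split
import Pool.Agent.SNP.D.JacForm

/-!
# SNP-D-CERTA: nonvanishing of the forms of a nondegenerate map
-/

set_option autoImplicit false

namespace Pool.Agent.SNP

open Pool.Agent.Helper59.DML

/-- a form of positive degree over an algebraically closed field has a nontrivial zero. -/
theorem form_zero {K : Type*} [Field K] [IsAlgClosed K] {d : ℕ} (hd : 1 ≤ d) (e : Fin (d + 1) → K) :
    ∃ u : Fin 2 → K, u ≠ 0 ∧ form e u = 0 := by
  by_cases he : e = 0
  · refine ⟨![1, 0], ?_, ?_⟩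
    · intro h
      have := congrFun h 0
      simp at this
    · rw [he]
      simp [form]
  · obtain ⟨κ, x, -, hx, h⟩ := form_split he
    refine ⟨x ⟨0, hd⟩, (hx _).ne_zero, ?_⟩
    rw [h, Finset.prod_eq_zero (Finset.mem_univ (⟨0, hd⟩ : Fin d)) (det2_self _), mul_zero]

theorem coef_ne {K : Type*} [Field K] [IsAlgClosed K] {d : ℕ} (hd : 1 ≤ d) {c : Fin 2 → Fin (d + 1) → K}
    (hc : ∀ u : Fin 2 → K, u ≠ 0 → hlift c u ≠ 0) (k : Fin 2) : c k ≠ 0 := by
  intro h0
  obtain ⟨u, hu, hu2⟩ := form_zero hd (c (1 - k))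
  refine hc u hu (funext fun j => ?_)
  have h1 : form (c k) u = 0 := by rw [h0]; simp [form]
  fin_cases k <;> fin_cases j
  · exact h1
  · exact hu2
  · exact hu2
  · exact h1

theorem prform_ne {K : Type*} [Field K] [IsAlgClosed K] {d : ℕ} (hd : 1 ≤ d) {c : Fin 2 → Fin (d + 1) → K}
    (hc : ∀ u : Fin 2 → K, u ≠ 0 → hlift c u ≠ 0) {y : Fin 2 → K} (hy : y ≠ 0) : prform c y ≠ 0 := by
  intro h0
  have h1 : ∀ w, det2 (hlift c w) y = 0 := by
    intro w
    rw [pre_form, h0]
    simp [form]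
  obtain ⟨u, hu, hu2⟩ := form_zero hd (c 0)
  obtain ⟨v, hv, hv2⟩ := form_zero hd (c 1)
  have h2 := det2_trans hy (h1 u) (det2_symm (h1 v))
  have h3 : det2 (hlift c u) (hlift c v) = - (form (c 1) u * form (c 0) v) := by
    simp only [det2, hlift, hu2, hv2]
    ring
  rw [h3, neg_eq_zero, mul_eq_zero] at h2
  rcases h2 with h2 | h2
  · refine hc u hu (funext fun k => ?_)
    fin_cases k
    · exact hu2
    · exact h2
  · refine hc v hv (funext fun k => ?_)
    fin_cases k
    · exact h2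
    · exact hv2

end Pool.Agent.SNP
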