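import Pool.Agent.SNP.D.Split
import Pool.Agent.SNP.D.JacForm
import Pool.Agent.SNP.A.Surj

/-!
# SNP-D-CRIT: the finite sets of periodic critical points and of targets over `ℂ`

PROOF. `Nv x`: normalised vectors; every nonzero vector is proportional to exactly one normalised vector (`nrm z = ![1, 0]` if `z 1 = 0`, `![z 0 / z 1, 1]` otherwise; two proportional normalised vectors are equal).
`Cr = {x | Nv x ∧ jac c x = 0}` is finite: `jac c x = form (jform c) x` (`jac_eq_form`), `jform c ≠ 0`, `form_split`: `jac c x = κ ∏ det2 x (x_j)`, so `x` is one of the `x_j`. In the same way (or by `fibre_fin` of `A/Surj.lean`, `n = 1`) `{x | Nv x ∧ det2 (hlift c x) γ = 0}` is finite for `γ ≠ 0`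
(by `pre_form` and `form_split`; `prform c γ ≠ 0` because otherwise `det2 (hlift c x) γ = 0` for all `x`, contradicting surjectivity `hlift_surj` with a vector not proportional to `γ`).
`PC = {x ∈ Cr | ∃ m ≥ 1, det2 ((hlift c)^[m] x) x = 0}`, `G = {y | Nv y ∧ ∃ x ∈ PC, ∃ k, det2 ((hlift c)^[k] x) y = 0}`: finite, because `k` can be replaced by `k % m` (if `f^m x ∝ x` then `f^(k) x ∝ f^(k % m) x`: `hlift_det2`), and for given `x, k` there is only one `y` (`f^k x ≠ 0`: `hlift_iter_ne`).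
`T = {x ∈ Cr | x ∉ PC} ∪ {x | Nv x ∧ (∃ γ ∈ G, det2 (hlift c x) γ = 0) ∧ x ∉ G}`, finite.
(3) `jac c x = 0`: `x ∈ PC ⊆ G` (`k = 0`) or `x ∈ T`. (4) clear. (5) `γ ∝ f^k x`, so `f γ ∝ f^(k+1) x` (`hlift_det2`), take `γ' = nrm (f^(k+1) x)` (`det2_trans`).
(6) `t ∈ Cr`: left. `t` in the second set: right; `det2 t γ ≠ 0` because otherwise `t = γ ∈ G` (both normalised). (7) for `t ∈ Cr`, `t ∉ PC` by definition; for `t` in the second set: if `det2 (f^m t) t = 0`, `m ≥ 1`: `f t ∝ γ ∈ G`, so by (5) `f^m t ∝ γ' ∈ G`, so `t ∝ γ'`, so `t ∈ G`, contradiction.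
(8) if `d = 1` then `jac c x = form (jform c) x` with `jform c : Fin 1 → ℂ` nonzero is a nonzero constant, so `Cr = ∅`, so `PC = G = T = ∅`.
(`det2_trans`, `det2_symm`, `det2_self`, `hlift_det2` are in `D/Defs.lean`.)
-/

set_option autoImplicit false

namespace Pool.Agent.SNP

open Pool.Agent.Helper59.DML

private noncomputable def crNrm (z : Fin 2 → ℂ) : Fin 2 → ℂ :=
  if z 1 = 0 then ![1, 0] else ![z 0 / z 1, 1]

private theorem crNrm_nv (z : Fin 2 → ℂ) : Nv (crNrm z) := by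
  unfold crNrm Nv
  by_cases h : z 1 = 0
  · rw [if_pos h]
    exact Or.inr rfl
  · rw [if_neg h]
    left
    rfl

private theorem crNrm_det (z : Fin 2 → ℂ) : det2 (crNrm z) z = 0 := by
  unfold crNrm
  by_cases h : z 1 = 0
  · rw [if_pos h]
    simp [det2, h]
  · rw [if_neg h]
    simp only [det2, Matrix.cons_val_zero, Matrix.cons_val_one, Matrix.cons_val_fin_one]
    field_simp
    ring

private theorem crNv_eq {x y : Fin 2 → ℂ} (hx : Nv x) (hy : Nv y) (h : det2 x y = 0) : x = y := by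
  have h' : x 0 * y 1 - x 1 * y 0 = 0 := h
  rcases hx with hx | hx
  · rcases hy with hy | hy
    · rw [hx, hy, mul_one, one_mul, sub_eq_zero] at h'
      ext k
      fin_cases k
      · exact h'
      · exact hx.trans hy.symm
    · rw [hx, hy] at h'
      simp at h'
  · rcases hy with hy | hy
    · rw [hx, hy] at h'
      simp at h'
    · rw [hx, hy]

private theorem crPer {d : ℕ} {c : Fin 2 → Fin (d + 1) → ℂ}
    (hc : ∀ u : Fin 2 → ℂ, u ≠ 0 → hlift c u ≠ 0) {x : Fin 2 → ℂ} (hx : x ≠ 0) {m : ℕ}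
    (h : det2 ((hlift c)^[m] x) x = 0) (q r : ℕ) :
    det2 ((hlift c)^[m * q + r] x) ((hlift c)^[r] x) = 0 := by
  induction q with
  | zero =>
    rw [mul_zero, zero_add]
    exact det2_self _
  | succ q ih =>
    have e1 : m * (q + 1) + r = (m * q + r) + m := by ring
    rw [e1, Function.iterate_add_apply]
    have h1 := hlift_det2 c (m * q + r) (hlift_iter_ne hc m hx) h
    exact det2_trans (hlift_iter_ne hc _ hx) h1 ih

theorem exists_sets {d : ℕ} (hd : 1 ≤ d) {c : Fin 2 → Fin (d + 1) → ℂ} (hc : ∀ u : Fin 2 → ℂ, u ≠ 0 → hlift c u ≠ 0) :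
    ∃ G T : Finset (Fin 2 → ℂ), (∀ x ∈ G, Nv x) ∧ (∀ x ∈ T, Nv x) ∧
      (∀ x, Nv x → jac c x = 0 → x ∈ G ∨ x ∈ T) ∧
      (∀ γ ∈ G, ∀ x, Nv x → det2 (hlift c x) γ = 0 → x ∈ G ∨ x ∈ T) ∧
      (∀ γ ∈ G, ∃ γ' ∈ G, det2 (hlift c γ) γ' = 0) ∧
      (∀ t ∈ T, jac c t = 0 ∨ ((∃ γ ∈ G, det2 (hlift c t) γ = 0) ∧ ∀ γ ∈ G, det2 t γ ≠ 0)) ∧
      (∀ t ∈ T, ∀ m, 1 ≤ m → det2 ((hlift c)^[m] t) t ≠ 0) ∧ (T.Nonempty → 2 ≤ d) := by
  classical
  -- critical points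
  obtain ⟨κ, xs, hκ, hxs, hfs⟩ := form_split (jform_ne_zero hd hc)
  have hjac : ∀ w : Fin 2 → ℂ, jac c w = κ * ∏ j, det2 w (xs j) := fun w => by
    rw [jac_eq_form hd, hfs w]
  set Cr : Set (Fin 2 → ℂ) := {x | Nv x ∧ jac c x = 0} with hCr
  have hCrfin : Cr.Finite := by
    refine (Set.finite_range xs).subset ?_
    rintro x ⟨hx, hj⟩
    rw [hjac x] at hj
    rcases mul_eq_zero.1 hj with h1 | h1
    · exact absurd h1 hκ
    · obtain ⟨j, -, hj2⟩ := Finset.prod_eq_zero_iff.1 h1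
      exact ⟨j, (crNv_eq hx (hxs j) hj2).symm⟩
  -- preimages
  have hpre : ∀ γ : Fin 2 → ℂ, γ ≠ 0 → {x : Fin 2 → ℂ | Nv x ∧ det2 (hlift c x) γ = 0}.Finite := by
    intro γ hγ
    refine (fibre_fin hd hc 1 γ hγ).subset ?_
    rintro x ⟨hx, hx2⟩
    refine ⟨?_, by simpa using hx2⟩
    rcases hx with hx | hx
    · exact Or.inr hx
    · left
      rw [hx]
      rfl
  set PC : Set (Fin 2 → ℂ) := {x | x ∈ Cr ∧ ∃ m, 1 ≤ m ∧ det2 ((hlift c)^[m] x) x = 0} with hPC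
  have hPCfin : PC.Finite := hCrfin.subset fun x hx => hx.1
  set G : Set (Fin 2 → ℂ) := {y | Nv y ∧ ∃ x ∈ PC, ∃ k : ℕ, det2 ((hlift c)^[k] x) y = 0} with hG
  have hGfin : G.Finite := by
    have h1 : G ⊆ ⋃ x ∈ PC, {y | Nv y ∧ ∃ k : ℕ, det2 ((hlift c)^[k] x) y = 0} := by
      rintro y ⟨hy, x, hx, k, hk⟩
      simp only [Set.mem_iUnion]
      exact ⟨x, hx, hy, k, hk⟩
    refine (hPCfin.biUnion fun x hx => ?_).subset h1
    obtain ⟨hxC, m, hm, hper⟩ := hx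
    have hx0 : x ≠ 0 := hxC.1.ne_zero
    refine ((Set.finite_lt_nat m).image fun k => crNrm ((hlift c)^[k] x)).subset ?_
    rintro y ⟨hy, k, hk⟩
    refine ⟨k % m, Nat.mod_lt k hm, ?_⟩
    have h2 := crPer hc hx0 hper (k / m) (k % m)
    rw [Nat.div_add_mod] at h2
    have h3 : det2 ((hlift c)^[k % m] x) y = 0 :=
      det2_trans (hlift_iter_ne hc k hx0) (det2_symm h2) hk
    exact crNv_eq (crNrm_nv _) hy
      (det2_trans (hlift_iter_ne hc (k % m) hx0) (crNrm_det _) h3)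
  set T : Set (Fin 2 → ℂ) := {x | x ∈ Cr ∧ x ∉ PC} ∪
    {x | Nv x ∧ (∃ γ ∈ G, det2 (hlift c x) γ = 0) ∧ x ∉ G} with hT
  have hTfin : T.Finite := by
    refine (hCrfin.subset fun x hx => hx.1).union ?_
    have h1 : {x | Nv x ∧ (∃ γ ∈ G, det2 (hlift c x) γ = 0) ∧ x ∉ G} ⊆
        ⋃ γ ∈ G, {x : Fin 2 → ℂ | Nv x ∧ det2 (hlift c x) γ = 0} := by
      rintro x ⟨hx, ⟨γ, hγ, h2⟩, -⟩
      simp only [Set.mem_iUnion]
      exact ⟨γ, hγ, hx, h2⟩
    exact (hGfin.biUnion fun γ hγ => hpre γ hγ.1.ne_zero).subset h1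
  -- forward invariance
  have hinv : ∀ γ ∈ G, ∃ γ' ∈ G, det2 (hlift c γ) γ' = 0 := by
    rintro γ ⟨hγ, x, hx, k, hk⟩
    have hx0 : x ≠ 0 := hx.1.1.ne_zero
    refine ⟨crNrm ((hlift c)^[k + 1] x), ⟨crNrm_nv _, x, hx, k + 1, det2_symm (crNrm_det _)⟩, ?_⟩
    have h1 := hlift_det2 c 1 (hlift_iter_ne hc k hx0) hk
    rw [← Function.iterate_add_apply, Function.iterate_one, add_comm 1 k] at h1
    exact det2_trans (hlift_iter_ne hc (k + 1) hx0) (det2_symm h1) (det2_symm (crNrm_det _))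
  have hinvn : ∀ n : ℕ, ∀ γ ∈ G, ∃ γ' ∈ G, det2 ((hlift c)^[n] γ) γ' = 0 := by
    intro n
    induction n with
    | zero =>
      intro γ hγ
      exact ⟨γ, hγ, det2_self γ⟩
    | succ n ih =>
      intro γ hγ
      obtain ⟨γ₁, hγ₁, h1⟩ := ih γ hγ
      obtain ⟨γ₂, hγ₂, h2⟩ := hinv γ₁ hγ₁
      refine ⟨γ₂, hγ₂, ?_⟩
      have h3 := hlift_det2 c 1 (hlift_iter_ne hc n hγ.1.ne_zero) h1
      rw [← Function.iterate_add_apply, Function.iterate_one, add_comm 1 n] at h3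
      exact det2_trans (hc γ₁ hγ₁.1.ne_zero) h3 h2
  refine ⟨hGfin.toFinset, hTfin.toFinset, ?_, ?_, ?_, ?_, ?_, ?_, ?_, ?_⟩
  · intro x hx
    rw [Set.Finite.mem_toFinset] at hx
    exact hx.1
  · intro x hx
    rw [Set.Finite.mem_toFinset] at hx
    rcases hx with hx | hx
    · exact hx.1.1
    · exact hx.1
  · intro x hx hj
    rw [Set.Finite.mem_toFinset, Set.Finite.mem_toFinset]
    by_cases hP : x ∈ PC
    · exact Or.inl ⟨hx, x, hP, 0, det2_self x⟩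
    · exact Or.inr (Or.inl ⟨⟨hx, hj⟩, hP⟩)
  · intro γ hγ x hx h1
    rw [Set.Finite.mem_toFinset] at hγ
    rw [Set.Finite.mem_toFinset, Set.Finite.mem_toFinset]
    by_cases hP : x ∈ G
    · exact Or.inl hP
    · exact Or.inr (Or.inr ⟨hx, ⟨γ, hγ, h1⟩, hP⟩)
  · intro γ hγ
    rw [Set.Finite.mem_toFinset] at hγ
    obtain ⟨γ', hγ', h1⟩ := hinv γ hγ
    exact ⟨γ', (Set.Finite.mem_toFinset _).2 hγ', h1⟩
  · intro t ht
    rw [Set.Finite.mem_toFinset] at ht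
    rcases ht with ht | ht
    · exact Or.inl ht.1.2
    · right
      obtain ⟨ht1, ⟨γ, hγ, h1⟩, ht2⟩ := ht
      refine ⟨⟨γ, (Set.Finite.mem_toFinset _).2 hγ, h1⟩, ?_⟩
      intro δ hδ h2
      rw [Set.Finite.mem_toFinset] at hδ
      apply ht2
      rw [crNv_eq ht1 hδ.1 h2]
      exact hδ
  · intro t ht m hm h1
    rw [Set.Finite.mem_toFinset] at ht
    rcases ht with ht | ht
    · exact ht.2 ⟨ht.1, m, hm, h1⟩
    · obtain ⟨ht1, ⟨γ, hγ, h2⟩, ht2⟩ := ht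
      have ht0 : t ≠ 0 := ht1.ne_zero
      obtain ⟨n, rfl⟩ : ∃ n, m = n + 1 := ⟨m - 1, by omega⟩
      obtain ⟨γ', hγ', h3⟩ := hinvn n γ hγ
      have h4 := hlift_det2 c n (hc t ht0) h2
      rw [← Function.iterate_succ_apply] at h4
      have h5 : det2 ((hlift c)^[n + 1] t) γ' = 0 :=
        det2_trans (hlift_iter_ne hc n hγ.1.ne_zero) h4 h3
      have h6 : det2 γ' t = 0 := det2_trans (hlift_iter_ne hc (n + 1) ht0) (det2_symm h5) h1
      apply ht2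
      rw [← crNv_eq hγ'.1 ht1 h6]
      exact hγ'
  · rintro ⟨t, ht⟩
    rw [Set.Finite.mem_toFinset] at ht
    by_contra hlt
    have hd1 : d = 1 := by omega
    have hCr0 : ∀ x, x ∉ Cr := by
      rintro x ⟨-, hj⟩
      rw [hjac x] at hj
      have h1 : ∏ j, det2 x (xs j) = 1 := by
        have : IsEmpty (Fin (2 * (d - 1))) := by
          rw [hd1]
          exact Fin.isEmpty
        exact Finset.prod_of_isEmpty _
      rw [h1, mul_one] at hj
      exact hκ hj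
    rcases ht with ht | ht
    · exact hCr0 t ht.1
    · obtain ⟨-, ⟨γ, ⟨-, x, hx, -⟩, -⟩, -⟩ := ht
      exact hCr0 x hx.1


end Pool.Agent.SNP
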