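import Pool.Agent.SNP.D.Defs
import Pool.Agent.Helper59.DML.Residue

/-!
# SNP-D-RES: consequences of a certificate at a place

PROOF. (a) `res_hom`: `φ` factors through `ℤ_[p]` (`ℤ_[p] = {x : ℚ_[p] // ‖x‖ ≤ 1}`; ring homomorphism `A →+* ℤ_[p]`, `x ↦ ⟨φ x, h x⟩`), compose with `PadicInt.toZMod`; `PadicInt.toZMod y = 0 ↔ ‖y‖ < 1` (`PadicInt.ker_toZMod`, `PadicInt.mem_nonunits`, see the first lemma of `UQ/Units.lean`).
(b) `goodRed_of_cert`: `Ω = PadicAlgCl p` (`NontriviallyNormedField`, `IsUltrametricDist`), `exists_residue Ω` (`DML/Residue.lean`): `O : Subring Ω`, a field `k : Type` and `π : O →+* k` with `x ∈ O ↔ ‖x‖ ≤ 1` and `π x = 0 ↔ ‖x‖ < 1`. `φ' : A →+* O`, `x ↦ ⟨al p (φ x), _⟩` (`‖al p x‖ = ‖x‖`: `norm_algebraMap'`). Let `‖u‖ = 1`: `u` comes from `u₀ : Fin 2 → O` with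
`π u₀ ≠ 0` (as in the proof of `core_res`), `hlift` commutes with `O ⊆ Ω` and `π` (`vmap_hlift`), `hcert.good k (π.comp φ')` gives that some coordinate of `hlift (cmap (π φ') c) (π u₀)` is not zero, so the corresponding coordinate of `hlift c u` has norm `1`; all coordinates have norm `≤ 1` since they are in `O`.
(c) `iter_norm`: with `φ̄` from (a): by induction `vmap φ̄ ((hlift c)^[n] v) ≠ 0` (`hcert.good`, `vmap_hlift_iter`); `v` has a unit coordinate. A vector with coordinates of norm `≤ 1` and nonzero reduction has norm `1`. (`vec_norm`: `T t`, which has a coordinate `1`, in the same way.)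
(d) `nper_of_targ`: let `m ≥ 1`; suppose `‖det2 (f^m w) w‖ < 1` (it is `≤ 1`), so `φ̄ (det2 ((hlift c)^[m] (T t)) (T t)) = 0`. From `det2 (hlift c (T t)) (G g) = 0` and `hcert.inv`, over `ZMod p`, by induction on `m ≥ 1` there is `g'` with `det2 (f^m (T t)) (G g') = 0` (`hlift_det2` with `n = 1`, `det2_trans`; vectors are nonzero by `hcert.unimG`, `hcert.good`). So `φ̄ (det2 (T t) (G g')) = 0` (`det2_trans`, `det2_symm`),
but it is the image of a unit.
-/

set_option autoImplicit false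

namespace Pool.Agent.SNP

open Pool.Agent.Helper59.DML

private noncomputable def Res_int {A : Type} [CommRing A] {p : ℕ} [Fact p.Prime] (φ : A →+* ℚ_[p])
    (hφ : ∀ x, ‖φ x‖ ≤ 1) : A →+* ℤ_[p] where
  toFun x := ⟨φ x, hφ x⟩
  map_one' := Subtype.ext (map_one φ)
  map_mul' x y := Subtype.ext (map_mul φ x y)
  map_zero' := Subtype.ext (map_zero φ)
  map_add' x y := Subtype.ext (map_add φ x y)

theorem res_hom {A : Type} [CommRing A] {p : ℕ} [Fact p.Prime] (φ : A →+* ℚ_[p]) (hφ : ∀ x, ‖φ x‖ ≤ 1) :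
    ∃ φ' : A →+* ZMod p, ∀ x, φ' x = 0 ↔ ‖φ x‖ < 1 := by
  refine ⟨(PadicInt.toZMod : ℤ_[p] →+* ZMod p).comp (Res_int φ hφ), fun x => ?_⟩
  rw [RingHom.comp_apply, ← RingHom.mem_ker, PadicInt.ker_toZMod]
  exact PadicInt.mem_nonunits

variable {A : Type} [CommRing A] {p : ℕ} [Fact p.Prime] {φ : A →+* ℚ_[p]} {d : ℕ} {c : Fin 2 → Fin (d + 1) → A}
  {a b : ℕ} {G : Fin a → Fin 2 → A} {T : Fin b → Fin 2 → A}

theorem goodRed_of_cert (hφ : ∀ x, ‖φ x‖ ≤ 1) (hcert : Cert c G T) :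
    GoodRed (cmap (algebraMap ℚ_[p] (PadicAlgCl p)) (cmap φ c)) := by
  obtain ⟨O, k, _, π, hO, hπ⟩ := exists_residue (PadicAlgCl p)
  have hn : ∀ x : A, ‖al p (φ x)‖ ≤ 1 := fun x => by
    rw [norm_algebraMap']; exact hφ x
  let φ' : A →+* O := ((al p).comp φ).codRestrict O (fun x => (hO _).2 (hn x))
  refine ⟨fun i j => hn _, fun u hu => ?_⟩
  have hOn : ∀ x : O, ‖(x : PadicAlgCl p)‖ ≤ 1 := fun x => (hO _).1 x.2
  let u₀ : Fin 2 → O := fun i => ⟨u i, (hO _).2 ((norm_le_pi_norm u i).trans hu.le)⟩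
  have e0 : vmap O.subtype u₀ = u := rfl
  have h0 : vmap π u₀ ≠ 0 := by
    intro h0
    have h4 : ∀ i, ‖u i‖ < 1 := fun i => (hπ (u₀ i)).1 (congrFun h0 i)
    have := (pi_norm_lt_iff one_pos).2 h4
    linarith
  have h1 := hcert.good k (π.comp φ') (vmap π u₀) h0
  rw [← cmap_cmap, ← vmap_hlift] at h1
  have e1 : hlift (cmap (algebraMap ℚ_[p] (PadicAlgCl p)) (cmap φ c)) u =
      vmap O.subtype (hlift (cmap φ' c) u₀) := by
    rw [vmap_hlift]
    rfl
  rw [e1]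
  refine le_antisymm ((pi_norm_le_iff_of_nonneg zero_le_one).2 fun i => hOn _) ?_
  by_contra hlt
  push Not at hlt
  apply h1
  funext i
  exact (hπ _).2 ((norm_le_pi_norm (vmap O.subtype (hlift (cmap φ' c) u₀)) i).trans_lt hlt)

private theorem Res_ne (φ' : A →+* ZMod p) (hcert : Cert c G T) {v : Fin 2 → A}
    (hv : ∃ k, IsUnit (v k)) (n : ℕ) : (hlift (cmap φ' c))^[n] (vmap φ' v) ≠ 0 := by
  induction n with
  | zero =>
    obtain ⟨k, hk⟩ := hv
    intro h0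
    have h1 : φ' (v k) = 0 := congrFun h0 k
    exact (hk.map φ').ne_zero h1
  | succ n ih =>
    rw [Function.iterate_succ_apply']
    exact hcert.good (ZMod p) φ' _ ih

theorem iter_norm (hφ : ∀ x, ‖φ x‖ ≤ 1) (hcert : Cert c G T) {v : Fin 2 → A} (hv : ∃ k, IsUnit (v k)) (n : ℕ) :
    ‖(hlift (cmap φ c))^[n] (vmap φ v)‖ = 1 := by
  obtain ⟨φ', hφ'⟩ := res_hom φ hφ
  have h1 := Res_ne φ' hcert hv n
  rw [← vmap_hlift_iter] at h1 ⊢
  refine le_antisymm ((pi_norm_le_iff_of_nonneg zero_le_one).2 fun i => hφ _) ?_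
  by_contra hlt
  push Not at hlt
  apply h1
  funext i
  exact (hφ' _).2 ((norm_le_pi_norm (vmap φ ((hlift c)^[n] v)) i).trans_lt hlt)

theorem nper_of_targ (hφ : ∀ x, ‖φ x‖ ≤ 1) (hcert : Cert c G T) (t : Fin b)
    (h1 : ∃ g, det2 (hlift c (T t)) (G g) = 0) (h2 : ∀ g, IsUnit (det2 (T t) (G g))) :
    NPer (cmap φ c) (vmap φ (T t)) := by
  intro m hm
  obtain ⟨φ', hφ'⟩ := res_hom φ hφ
  rw [← vmap_hlift_iter, ← map_det2]
  refine le_antisymm (hφ _) ?_
  by_contra hlt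
  push Not at hlt
  have h3 := (hφ' _).2 hlt
  rw [map_det2, vmap_hlift_iter] at h3
  have hT : ∃ k, IsUnit (T t k) := by
    obtain ⟨k, hk⟩ := hcert.unimT t
    exact ⟨k, by rw [hk]; exact isUnit_one⟩
  have hG : ∀ g, ∃ k, IsUnit (G g k) := fun g => by
    obtain ⟨k, hk⟩ := hcert.unimG g
    exact ⟨k, by rw [hk]; exact isUnit_one⟩
  have key : ∀ n, ∃ g, det2 ((hlift (cmap φ' c))^[n + 1] (vmap φ' (T t))) (vmap φ' (G g)) = 0 := by
    intro n
    induction n with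
    | zero =>
      obtain ⟨g, hg⟩ := h1
      refine ⟨g, ?_⟩
      have h4 := congrArg φ' hg
      rw [map_det2, vmap_hlift, map_zero] at h4
      exact h4
    | succ n ih =>
      obtain ⟨g, hg⟩ := ih
      obtain ⟨g', hg'⟩ := hcert.inv g
      have h4 := congrArg φ' hg'
      rw [map_det2, vmap_hlift, map_zero] at h4
      refine ⟨g', ?_⟩
      have h5 := hlift_det2 (cmap φ' c) 1 (Res_ne φ' hcert hT (n + 1)) hg
      rw [Function.iterate_one, ← Function.iterate_succ_apply' (hlift (cmap φ' c))] at h5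
      exact det2_trans (Res_ne φ' hcert (hG g) 1) h5 h4
  obtain ⟨n, rfl⟩ : ∃ n, m = n + 1 := ⟨m - 1, by omega⟩
  obtain ⟨g, hg⟩ := key n
  have h6 := det2_trans (Res_ne φ' hcert hT (n + 1)) (det2_symm h3) hg
  rw [← map_det2] at h6
  exact ((h2 g).map φ').ne_zero h6

end Pool.Agent.SNP
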