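import Pool.Agent.SNP.D.Defs

/-!
# SNP-D-SPLIT: a binary form over an algebraically closed field is a product of linear forms

PROOF. `P = ∑ j, C (e j) * X ^ j` (`j : Fin (m + 1)`), nonzero because `e ≠ 0` (coefficients: `Polynomial.finsetSum_coeff`, `coeff_C_mul_X_pow`), `D = P.natDegree ≤ m`. `P = C lc * (P.roots.map (X - C ·)).prod` (`IsAlgClosed.splits`, `Polynomial.Splits.eq_prod_roots` or `C_leadingCoeff_mul_prod_multiset_X_sub_C` with `card roots = natDegree`), `P.roots` is a multiset with `D` elements; list them as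
`r : Fin D → K` (`Multiset.toList`, or work with a list `L` with `L.length = D`). `κ = lc * (-1)^(m - D)`, `x j = ![r j, 1]` for `j < D` and `![1, 0]` for `j ≥ D`: `det2 w ![r, 1] = w 0 - w 1 * r`, `det2 w ![1, 0] = - w 1`. To prove `form e w = lc * w 1 ^ (m - D) * ∏ (w 0 - r w 1)`: if `w 1 ≠ 0`, `form e w = w 1 ^ m * P.eval (w 0 / w 1)`
(termwise, `form e w = ∑ e j * w 0 ^ j * w 1 ^ (m - j)`). If `w 1 = 0`: both sides are polynomials in `w 1` (fix `w 0`) which agree for all `w 1 ≠ 0` and `K` is infinite (`Polynomial.eq_of_infinite_eval_eq`); or directly: the left side is `e m * w 0 ^ m`, the right side is `0` if `D < m` (and `e m = 0`) and `lc * w 0 ^ m` if `D = m`.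
-/

set_option autoImplicit false

namespace Pool.Agent.SNP

open Pool.Agent.Helper59.DML

private theorem form_factor {K : Type*} [Field K] (m : ℕ) (a b : ℕ → K) (r : K)
    (ha0 : a 0 = -(r * b 0)) (has : ∀ k, a (k + 1) = b k - r * b (k + 1)) (hb : b (m + 1) = 0)
    (X Y : K) :
    ∑ i ∈ Finset.range (m + 2), a i * X ^ i * Y ^ (m + 1 - i) =
      (X - Y * r) * ∑ i ∈ Finset.range (m + 1), b i * X ^ i * Y ^ (m - i) := by
  have h1 : ∑ i ∈ Finset.range (m + 2), a i * X ^ i * Y ^ (m + 1 - i) =
      ∑ i ∈ Finset.range (m + 1), b i * X ^ (i + 1) * Y ^ (m - i) -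
      r * (∑ i ∈ Finset.range (m + 1), b (i + 1) * X ^ (i + 1) * Y ^ (m - i) +
        b 0 * Y ^ (m + 1)) := by
    rw [Finset.sum_range_succ', mul_add, Finset.mul_sum]
    have h2 : ∑ k ∈ Finset.range (m + 1), a (k + 1) * X ^ (k + 1) * Y ^ (m + 1 - (k + 1)) =
        ∑ i ∈ Finset.range (m + 1), b i * X ^ (i + 1) * Y ^ (m - i) -
        ∑ i ∈ Finset.range (m + 1), r * (b (i + 1) * X ^ (i + 1) * Y ^ (m - i)) := by
      rw [← Finset.sum_sub_distrib]
      refine Finset.sum_congr rfl (fun k _ => ?_)
      rw [has k, Nat.add_sub_add_right]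
      ring
    rw [h2, ha0]
    simp only [pow_zero, Nat.sub_zero]
    ring
  have h3 : ∑ i ∈ Finset.range (m + 1), b (i + 1) * X ^ (i + 1) * Y ^ (m - i) + b 0 * Y ^ (m + 1) =
      Y * ∑ i ∈ Finset.range (m + 1), b i * X ^ i * Y ^ (m - i) := by
    have h4 : ∑ i ∈ Finset.range (m + 1), b (i + 1) * X ^ (i + 1) * Y ^ (m - i) + b 0 * Y ^ (m + 1) =
        ∑ i ∈ Finset.range (m + 2), b i * X ^ i * Y ^ (m + 1 - i) := by
      rw [Finset.sum_range_succ' (fun i => b i * X ^ i * Y ^ (m + 1 - i)) (m + 1)]
      simp only [Nat.add_sub_add_right, pow_zero, Nat.sub_zero, mul_one]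
    rw [h4, Finset.sum_range_succ, hb, zero_mul, zero_mul, add_zero, Finset.mul_sum]
    refine Finset.sum_congr rfl (fun k hk => ?_)
    have hk' : k ≤ m := Nat.lt_succ_iff.1 (Finset.mem_range.1 hk)
    rw [show m + 1 - k = (m - k) + 1 by omega, pow_succ]
    ring
  have h5 : ∑ i ∈ Finset.range (m + 1), b i * X ^ (i + 1) * Y ^ (m - i) =
      X * ∑ i ∈ Finset.range (m + 1), b i * X ^ i * Y ^ (m - i) := by
    rw [Finset.mul_sum]
    exact Finset.sum_congr rfl (fun k _ => by rw [pow_succ]; ring)
  rw [h1, h3, h5]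
  ring

theorem form_split {K : Type*} [Field K] [IsAlgClosed K] {m : ℕ} {e : Fin (m + 1) → K} (he : e ≠ 0) :
    ∃ (κ : K) (x : Fin m → Fin 2 → K), κ ≠ 0 ∧ (∀ j, Nv (x j)) ∧
      ∀ w : Fin 2 → K, form e w = κ * ∏ j, det2 w (x j) := by
  classical
  induction m with
  | zero =>
    have he0 : e 0 ≠ 0 := by
      intro h0
      apply he
      funext i
      fin_cases i
      exact h0
    refine ⟨e 0, fun j => j.elim0, he0, fun j => j.elim0, fun w => ?_⟩
    simp [form]
  | succ m ih =>
    by_cases hl : e (Fin.last (m + 1)) = 0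
    · have he' : (fun i : Fin (m + 1) => e i.castSucc) ≠ 0 := by
        intro h0
        apply he
        funext i
        refine Fin.lastCases hl (fun j => ?_) i
        exact congrFun h0 j
      obtain ⟨κ, x, hκ, hx, hf⟩ := ih he'
      refine ⟨-κ, Fin.cons ![1, 0] x, neg_ne_zero.2 hκ, fun j => ?_, fun w => ?_⟩
      · refine Fin.cases ?_ (fun j => ?_) j
        · rw [Fin.cons_zero]; exact Or.inr rfl
        · rw [Fin.cons_succ]; exact hx j
      · have h1 : form e w = w 1 * form (fun i : Fin (m + 1) => e i.castSucc) w := by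
          unfold form
          rw [Fin.sum_univ_castSucc, hl, zero_mul, zero_mul, add_zero, Finset.mul_sum]
          refine Finset.sum_congr rfl (fun i _ => ?_)
          have hi : (i : ℕ) ≤ m := Nat.lt_succ_iff.1 i.2
          rw [Fin.val_castSucc, show m + 1 - (i : ℕ) = (m - i) + 1 by omega, pow_succ]
          ring
        rw [h1, hf w, Fin.prod_univ_succ]
        simp only [Fin.cons_zero, Fin.cons_succ]
        have h2 : det2 w ![1, 0] = - w 1 := by simp [det2]
        rw [h2]
        ring
    · set P : Polynomial K := ∑ i : Fin (m + 2), Polynomial.C (e i) * Polynomial.X ^ (i : ℕ) with hP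
      have hcoe : ∀ i : Fin (m + 2), P.coeff (i : ℕ) = e i := by
        intro i
        rw [hP, Polynomial.finsetSum_coeff]
        rw [Finset.sum_eq_single i]
        · simp
        · intro j _ hj
          rw [Polynomial.coeff_C_mul_X_pow, if_neg]
          intro h
          exact hj (Fin.ext h.symm)
        · intro h; exact absurd (Finset.mem_univ i) h
      have hdeg : P.natDegree ≤ m + 1 := by
        rw [hP]
        refine Polynomial.natDegree_sum_le_of_forall_le _ _ (fun i _ => ?_)
        exact (Polynomial.natDegree_C_mul_X_pow_le _ _).trans (Nat.lt_succ_iff.1 i.2)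
      have hlc : P.coeff (m + 1) ≠ 0 := by
        have := hcoe (Fin.last (m + 1))
        rw [Fin.val_last] at this
        rw [this]; exact hl
      have hnd : P.natDegree = m + 1 :=
        le_antisymm hdeg (Polynomial.le_natDegree_of_ne_zero hlc)
      have hP0 : P ≠ 0 := by
        intro h0; rw [h0, Polynomial.coeff_zero] at hlc; exact hlc rfl
      have hdne : P.degree ≠ 0 := by
        intro h
        have h' : P.natDegree = 0 := Polynomial.natDegree_eq_of_degree_eq_some h
        omega
      obtain ⟨r, hr⟩ := IsAlgClosed.exists_root P hdne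
      set Q : Polynomial K := P /ₘ (Polynomial.X - Polynomial.C r) with hQ
      have hPQ : (Polynomial.X - Polynomial.C r) * Q = P :=
        Polynomial.mul_divByMonic_eq_iff_isRoot.2 hr
      have hQd : Q.natDegree = m := by
        rw [hQ, Polynomial.natDegree_divByMonic _ (Polynomial.monic_X_sub_C r), hnd,
          Polynomial.natDegree_X_sub_C]
        rfl
      have ha0 : P.coeff 0 = -(r * Q.coeff 0) := by
        rw [← hPQ, sub_mul, Polynomial.coeff_sub, Polynomial.coeff_C_mul,
          Polynomial.coeff_X_mul_zero]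
        ring
      have has : ∀ k, P.coeff (k + 1) = Q.coeff k - r * Q.coeff (k + 1) := by
        intro k
        rw [← hPQ, sub_mul, Polynomial.coeff_sub, Polynomial.coeff_C_mul,
          Polynomial.coeff_X_mul]
      have hb : Q.coeff (m + 1) = 0 :=
        Polynomial.coeff_eq_zero_of_natDegree_lt (by rw [hQd]; exact Nat.lt_succ_self m)
      have hqne : (fun i : Fin (m + 1) => Q.coeff (i : ℕ)) ≠ 0 := by
        intro h0
        have h1 : Q.coeff m = 0 := by
          have := congrFun h0 (Fin.last m)
          simpa using this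
        apply hlc
        rw [has m, h1, hb]
        ring
      obtain ⟨κ, x, hκ, hx, hf⟩ := ih hqne
      refine ⟨κ, Fin.cons ![r, 1] x, hκ, fun j => ?_, fun w => ?_⟩
      · refine Fin.cases ?_ (fun j => ?_) j
        · rw [Fin.cons_zero]; exact Or.inl rfl
        · rw [Fin.cons_succ]; exact hx j
      · have h1 : form e w = (w 0 - w 1 * r) * form (fun i : Fin (m + 1) => Q.coeff (i : ℕ)) w := by
          have h2 := form_factor m (fun k => P.coeff k) (fun k => Q.coeff k) r ha0 has hb (w 0) (w 1)
          unfold form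
          rw [Fin.sum_univ_eq_sum_range (fun i => Q.coeff i * w 0 ^ i * w 1 ^ (m - i)) (m + 1)]
          rw [← h2, ← Fin.sum_univ_eq_sum_range (fun i => P.coeff i * w 0 ^ i * w 1 ^ (m + 1 - i)) (m + 2)]
          refine Finset.sum_congr rfl (fun i _ => ?_)
          rw [hcoe i]
        rw [h1, hf w, Fin.prod_univ_succ]
        simp only [Fin.cons_zero, Fin.cons_succ]
        have h2 : det2 w ![r, 1] = w 0 - w 1 * r := by simp [det2]
        rw [h2]
        ring

end Pool.Agent.SNP
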